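import Pool.Agent.Helper87.BCR.Alg

/-!
# Project BC, block RED: definitions used by the pieces
-/

open scoped MatrixGroups UpperHalfPlane Topology
open MeasureTheory

namespace Pool.Agent.Helper87.BCR
open Pool.Agent.Helper11.BC

/-- Continuity of a function on lists (in every length). -/
def LC {X : Type} [TopologicalSpace X] (Φ : List X → ℝ) : Prop :=
  ∀ k : ℕ, Continuous fun v : Fin k → X => Φ (List.ofFn v)

/-- Boundedness of a function on lists (in every length). -/
def LB {X : Type} (Φ : List X → ℝ) : Prop :=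
  ∀ k : ℕ, ∃ M : ℝ, ∀ l : List X, l.length = k → |Φ l| ≤ M

/-- A family of functions on lists, continuous also in the parameter. -/
def JC {Z X : Type} [TopologicalSpace Z] [TopologicalSpace X] (Φ : Z → List X → ℝ) : Prop :=
  ∀ k : ℕ, Continuous fun p : Z × (Fin k → X) => Φ p.1 (List.ofFn p.2)

/-- A family of functions on lists, bounded in every length, uniformly in the parameter. -/
def JB {Z X : Type} (Φ : Z → List X → ℝ) : Prop :=
  ∀ k : ℕ, ∃ M : ℝ, ∀ z, ∀ l : List X, l.length = k → |Φ z l| ≤ M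

/-- An averaging operator on bounded continuous functions, with the Feller property. -/
structure Mk (X : Type) [TopologicalSpace X] (T : (X → ℝ) → X → ℝ) : Prop where
  const : ∀ (c : ℝ) (x : X), T (fun _ => c) x = c
  add : ∀ (f g : X → ℝ) (M : ℝ), Continuous f → Continuous g → (∀ x, |f x| ≤ M) →
    (∀ x, |g x| ≤ M) → ∀ x, T (fun y => f y + g y) x = T f x + T g x
  smul : ∀ (c : ℝ) (f : X → ℝ) (M : ℝ), Continuous f → (∀ x, |f x| ≤ M) →
    ∀ x, T (fun y => c * f y) x = c * T f x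
  bdd : ∀ (f : X → ℝ) (M : ℝ), Continuous f → (∀ x, |f x| ≤ M) → ∀ x, |T f x| ≤ M
  cont : ∀ (Z : Type) [TopologicalSpace Z] [FirstCountableTopology Z] (f : Z → X → ℝ) (M : ℝ),
    Continuous (fun p : Z × X => f p.1 p.2) → (∀ z x, |f z x| ≤ M) →
    Continuous fun p : Z × X => T (f p.1) p.2

/-- An averaging operator on all bounded functions, with the strong Feller property. -/
structure SMk (X : Type) [TopologicalSpace X] (T : (X → ℝ) → X → ℝ) : Prop where
  const : ∀ (c : ℝ) (x : X), T (fun _ => c) x = c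
  add : ∀ (f g : X → ℝ) (M : ℝ), (∀ x, |f x| ≤ M) →
    (∀ x, |g x| ≤ M) → ∀ x, T (fun y => f y + g y) x = T f x + T g x
  smul : ∀ (c : ℝ) (f : X → ℝ) (M : ℝ), (∀ x, |f x| ≤ M) →
    ∀ x, T (fun y => c * f y) x = c * T f x
  bdd : ∀ (f : X → ℝ) (M : ℝ), (∀ x, |f x| ≤ M) → ∀ x, |T f x| ≤ M
  cont : ∀ (Z : Type) [TopologicalSpace Z] [FirstCountableTopology Z] (f : Z → X → ℝ) (M : ℝ),
    (∀ x, Continuous fun z => f z x) → (∀ z x, |f z x| ≤ M) →
    Continuous fun p : Z × X => T (f p.1) p.2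

/-- The rotation. -/
noncomputable def kk (θ : ℝ) : G :=
  ⟨!![Real.cos θ, -Real.sin θ; Real.sin θ, Real.cos θ], by
    rw [Matrix.det_fin_two_of]
    nlinarith [Real.sin_sq_add_cos_sq θ]⟩

/-- The average over the rotations. -/
noncomputable def T1 (f : G → ℝ) (g : G) : ℝ :=
  (2 * Real.pi)⁻¹ * ∫ θ in (0 : ℝ)..(2 * Real.pi), f (g * kk θ)

/-- The smoothing operator on the upper half plane. -/
noncomputable def T2 (f : ℍ → ℝ) (z : ℍ) : ℝ := ∫ w : ℍ, ker z w * f w

/-- The inclusion of `SL(2, ℤ)`. -/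
noncomputable def inc (γ : SL(2, ℤ)) : G := Matrix.SpecialLinearGroup.map (Int.castRingHom ℝ) γ

theorem inc_mul (γ δ : SL(2, ℤ)) : inc (γ * δ) = inc γ * inc δ := by
  simp [inc]

theorem inc_one : inc 1 = 1 := by
  simp [inc]

theorem inc_inv (γ : SL(2, ℤ)) : inc γ⁻¹ = (inc γ)⁻¹ := by
  simp [inc]

/-- Equivariant weights (a random point of `SL(2, ℤ)` for every element of the group). -/
structure IsWeight (p : SL(2, ℤ) → G → ℝ) : Prop where
  nonneg : ∀ γ g, 0 ≤ p γ g
  cont : ∀ γ, Continuous (p γ)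
  sum : ∀ g, HasSum (fun γ => p γ g) 1
  maj : ∀ g₀ : G, ∃ U ∈ 𝓝 g₀, ∃ u : SL(2, ℤ) → ℝ, Summable u ∧ ∀ γ, ∀ g ∈ U, p γ g ≤ u γ
  equi : ∀ γ δ g, p (δ * γ) (inc δ * g) = p γ g

/-- The operator of the weights. -/
noncomputable def T3 (p : SL(2, ℤ) → G → ℝ) (f : G → ℝ) (g : G) : ℝ :=
  ∑' γ : SL(2, ℤ), p γ g * f (inc γ)

/-- The Borel sets of the group (used as a local instance). -/
@[reducible] def mG : MeasurableSpace G := borel G

theorem bG : @BorelSpace G _ mG := @BorelSpace.mk G _ mG rfl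

end Pool.Agent.Helper87.BCR
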