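import Pool.Agent.Helper87.BCR.Basic

/-!
# Project BC, block RED: averaging operators on functions on lists
-/

set_option linter.unusedSectionVars false

open scoped MatrixGroups UpperHalfPlane Topology
open MeasureTheory

namespace Pool.Agent.Helper87.BCR
open Pool.Agent.Helper11.BC

theorem exists_ofFn {X : Type} {k : ℕ} (l : List X) (hl : l.length = k) :
    ∃ v : Fin k → X, List.ofFn v = l := by
  subst hl
  exact ⟨l.get, List.ofFn_get l⟩

section

variable {Z X : Type} [TopologicalSpace Z] [TopologicalSpace X]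

/-! ### Continuity in every length -/

theorem JC.cons {Φ : Z → List X → ℝ} (h : JC Φ) :
    JC (fun (p : Z × X) (m : List X) => Φ p.1 (p.2 :: m)) := by
  intro k
  have h1 : Continuous fun q : (Z × X) × (Fin k → X) =>
      (q.1.1, (Fin.cons q.1.2 q.2 : Fin (k + 1) → X)) := by
    refine (continuous_fst.comp continuous_fst).prodMk ?_
    exact Continuous.finCons (continuous_snd.comp continuous_fst) continuous_snd
  have h2 := (h (k + 1)).comp h1
  refine h2.congr fun q => ?_
  simp [List.ofFn_succ]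

theorem JC.sub {Φ Ψ : Z → List X → ℝ} (h : JC Φ) (h' : JC Ψ) :
    JC (fun z m => Φ z m - Ψ z m) := fun k => (h k).sub (h' k)

theorem JB.cons {Φ : Z → List X → ℝ} (h : JB Φ) :
    JB (fun (p : Z × X) (m : List X) => Φ p.1 (p.2 :: m)) := by
  intro k
  obtain ⟨M, hM⟩ := h (k + 1)
  exact ⟨M, fun p l hl => hM p.1 (p.2 :: l) (by simp [hl])⟩

theorem JB.sub {Φ Ψ : Z → List X → ℝ} (h : JB Φ) (h' : JB Ψ) :
    JB (fun z m => Φ z m - Ψ z m) := by
  intro k
  obtain ⟨M, hM⟩ := h k
  obtain ⟨M', hM'⟩ := h' k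
  exact ⟨M + M', fun z l hl => (abs_sub _ _).trans (add_le_add (hM z l hl) (hM' z l hl))⟩

theorem LC.JC {Φ : List X → ℝ} (h : LC Φ) : JC (fun (_ : Unit) => Φ) :=
  fun k => (h k).comp continuous_snd

theorem JC.LC {Φ : Z → List X → ℝ} (h : JC Φ) (z : Z) : LC (Φ z) :=
  fun k => (h k).comp (continuous_const.prodMk continuous_id)

theorem LB.JB {Φ : List X → ℝ} (h : LB Φ) : JB (fun (_ : Unit) => Φ) := by
  intro k
  obtain ⟨M, hM⟩ := h k
  exact ⟨M, fun _ l hl => hM l hl⟩

theorem JB.LB {Φ : Z → List X → ℝ} (h : JB Φ) (z : Z) : LB (Φ z) := by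
  intro k
  obtain ⟨M, hM⟩ := h k
  exact ⟨M, fun l hl => hM z l hl⟩

theorem LC.cons {Φ : List X → ℝ} (h : LC Φ) (x : X) : LC (fun m => Φ (x :: m)) :=
  h.JC.cons.LC ((), x)

theorem LB.cons {Φ : List X → ℝ} (h : LB Φ) (x : X) : LB (fun m => Φ (x :: m)) :=
  h.JB.cons.LB ((), x)

theorem LC.sub {Φ Ψ : List X → ℝ} (h : LC Φ) (h' : LC Ψ) : LC (fun m => Φ m - Ψ m) :=
  (h.JC.sub h'.JC).LC ()

theorem LB.sub {Φ Ψ : List X → ℝ} (h : LB Φ) (h' : LB Ψ) : LB (fun m => Φ m - Ψ m) :=
  (h.JB.sub h'.JB).LB ()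

theorem LB.of_bdd {Φ : List X → ℝ} {M : ℝ} (h : ∀ l, |Φ l| ≤ M) : LB Φ :=
  fun _ => ⟨M, fun l _ => h l⟩

end

section

variable {X : Type} [TopologicalSpace X]

theorem JC_dl_aux (k : ℕ) : ∀ (Z : Type) [TopologicalSpace Z] (Φ : Z → List X → ℝ), JC Φ →
    Continuous fun p : Z × (Fin k → X) => dl (Φ p.1) (List.ofFn p.2) := by
  induction k with
  | zero =>
    intro Z _ Φ _
    simp only [List.ofFn_zero, dl_nil]
    exact continuous_const
  | succ k ih =>
    intro Z _ Φ h
    have h1 := ih (Z × X) _ h.cons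
    have h2 : Continuous fun p : Z × (Fin (k + 1) → X) =>
        Φ p.1 (List.ofFn (Fin.tail p.2)) := by
      refine (h k).comp (continuous_fst.prodMk ?_)
      exact continuous_pi fun i => (continuous_apply i.succ).comp continuous_snd
    have h3 : Continuous fun p : Z × (Fin (k + 1) → X) =>
        (((p.1, p.2 0), Fin.tail p.2) : (Z × X) × (Fin k → X)) := by
      refine (continuous_fst.prodMk ((continuous_apply 0).comp continuous_snd)).prodMk ?_
      exact continuous_pi fun i => (continuous_apply i.succ).comp continuous_snd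
    refine (h2.sub (h1.comp h3)).congr fun p => ?_
    rw [List.ofFn_succ, dl_cons]
    rfl

theorem JC.dl {Z : Type} [TopologicalSpace Z] {Φ : Z → List X → ℝ} (h : JC Φ) :
    JC (fun z => Helper11.BC.dl (Φ z)) := fun k => JC_dl_aux k Z Φ h

theorem LC.dl {Φ : List X → ℝ} (h : LC Φ) : LC (Helper11.BC.dl Φ) := h.JC.dl.LC ()

theorem dl_abs_le (k : ℕ) : ∀ (Φ : List X → ℝ) (M : ℝ), (∀ l, l.length = k → |Φ l| ≤ M) →
    ∀ l, l.length = k + 1 → |Helper11.BC.dl Φ l| ≤ (k + 1 : ℕ) * M := by
  intro Φ M h l hl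
  unfold Helper11.BC.dl
  rw [hl]
  refine (Finset.abs_sum_le_sum_abs _ _).trans ?_
  have : ∀ i ∈ Finset.range (k + 1), |(-1 : ℝ) ^ i • Φ (l.eraseIdx i)| ≤ M := by
    intro i hi
    rw [smul_eq_mul, abs_mul, abs_pow, abs_neg, abs_one, one_pow, one_mul]
    refine h _ ?_
    rw [List.length_eraseIdx, if_pos (by rw [hl]; exact Finset.mem_range.1 hi), hl]
    rfl
  refine (Finset.sum_le_sum this).trans ?_
  simp

theorem JB.dl {Z : Type} {Φ : Z → List X → ℝ} (h : JB Φ) :
    JB (fun z => Helper11.BC.dl (Φ z)) := by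
  intro k
  rcases k with _ | k
  · refine ⟨0, fun z l hl => ?_⟩
    rw [List.length_eq_zero_iff.1 hl]
    show |Helper11.BC.dl (Φ z) []| ≤ 0
    rw [dl_nil, abs_zero]
  · obtain ⟨M, hM⟩ := h k
    exact ⟨(k + 1 : ℕ) * M, fun z l hl => dl_abs_le k _ M (hM z) l hl⟩

theorem LB.dl {Φ : List X → ℝ} (h : LB Φ) : LB (Helper11.BC.dl Φ) := h.JB.dl.LB ()

variable {T : (X → ℝ) → X → ℝ}

/-! ### Feller operators -/

theorem tens_joint [FirstCountableTopology X] (hT : Mk X T) (k : ℕ) : ∀ (Z : Type)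
    [TopologicalSpace Z] [FirstCountableTopology Z]
    (Φ : Z → List X → ℝ), JC Φ → ∀ M : ℝ, (∀ z l, l.length = k → |Φ z l| ≤ M) →
    (Continuous fun p : Z × (Fin k → X) => tens T (Φ p.1) (List.ofFn p.2)) ∧
    ∀ z l, l.length = k → |tens T (Φ z) l| ≤ M := by
  induction k with
  | zero =>
    intro Z _ _ Φ h M hM
    refine ⟨?_, fun z l hl => ?_⟩
    · refine (h 0).congr fun p => ?_
      simp [tens]
    · rw [List.length_eq_zero_iff.1 hl]
      exact hM z [] rfl
  | succ k ih =>
    intro Z _ _ Φ h M hM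
    obtain ⟨h1, h2⟩ := ih (Z × X) _ h.cons M
      (fun z l hl => hM z.1 (z.2 :: l) (by simp [hl]))
    let f : Z × (Fin k → X) → X → ℝ := fun q y =>
      tens T (fun m => Φ q.1 (y :: m)) (List.ofFn q.2)
    have hf : Continuous fun p : (Z × (Fin k → X)) × X => f p.1 p.2 := by
      have h3 : Continuous fun p : (Z × (Fin k → X)) × X =>
          (((p.1.1, p.2), p.1.2) : (Z × X) × (Fin k → X)) := by fun_prop
      exact h1.comp h3
    have hfM : ∀ q y, |f q y| ≤ M := fun q y => h2 (q.1, y) _ (by simp)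
    have h4 := hT.cont (Z × (Fin k → X)) f M hf hfM
    refine ⟨?_, fun z l hl => ?_⟩
    · have h5 : Continuous fun p : Z × (Fin (k + 1) → X) =>
          (((p.1, Fin.tail p.2), p.2 0) : (Z × (Fin k → X)) × X) := by
        refine (continuous_fst.prodMk ?_).prodMk ((continuous_apply 0).comp continuous_snd)
        exact continuous_pi fun i => (continuous_apply i.succ).comp continuous_snd
      refine (h4.comp h5).congr fun p => ?_
      rw [List.ofFn_succ]
      rfl
    · rcases l with _ | ⟨x, l⟩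
      · simp at hl
      · obtain ⟨v, rfl⟩ := exists_ofFn l (k := k) (by simpa using hl)
        exact hT.bdd (f (z, v)) M (hf.comp (continuous_const.prodMk continuous_id))
          (hfM (z, v)) x

theorem JC.tens [FirstCountableTopology X] (hT : Mk X T) {Z : Type} [TopologicalSpace Z]
    [FirstCountableTopology Z] {Φ : Z → List X → ℝ} (h : JC Φ) (hb : JB Φ) :
    JC (fun z => BCR.tens T (Φ z)) := by
  intro k
  obtain ⟨M, hM⟩ := hb k
  exact (tens_joint hT k Z Φ h M hM).1

theorem tens_abs_le [FirstCountableTopology X] (hT : Mk X T) {Φ : List X → ℝ} (h : LC Φ)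
    {M : ℝ} {l : List X} (hM : ∀ m : List X, m.length = l.length → |Φ m| ≤ M) :
    |tens T Φ l| ≤ M :=
  (tens_joint hT l.length Unit (fun _ => Φ) h.JC M (fun _ m hm => hM m hm)).2 () l rfl

theorem JB.tens [FirstCountableTopology X] (hT : Mk X T) {Z : Type} [TopologicalSpace Z]
    {Φ : Z → List X → ℝ} (h : JC Φ) (hb : JB Φ) :
    JB (fun z => BCR.tens T (Φ z)) := by
  intro k
  obtain ⟨M, hM⟩ := hb k
  exact ⟨M, fun z l hl => tens_abs_le hT (h.LC z) fun m hm => hM z m (hm.trans hl)⟩

theorem LC.tens [FirstCountableTopology X] (hT : Mk X T) {Φ : List X → ℝ} (h : LC Φ)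
    (hb : LB Φ) : LC (BCR.tens T Φ) := (h.JC.tens hT hb.JB).LC ()

theorem LB.tens [FirstCountableTopology X] (hT : Mk X T) {Φ : List X → ℝ} (h : LC Φ)
    (hb : LB Φ) : LB (BCR.tens T Φ) := (JB.tens hT h.JC hb.JB).LB ()

theorem pri_joint [FirstCountableTopology X] (hT : Mk X T) (k : ℕ) : ∀ (Z : Type)
    [TopologicalSpace Z] [FirstCountableTopology Z]
    (Φ : Z → List X → ℝ), JC Φ → ∀ M : ℝ, (∀ z l, l.length = k + 1 → |Φ z l| ≤ M) →
    (Continuous fun p : Z × (Fin k → X) => pri T (Φ p.1) (List.ofFn p.2)) ∧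
    ∀ z l, l.length = k → |pri T (Φ z) l| ≤ k * M := by
  induction k with
  | zero =>
    intro Z _ _ Φ h M hM
    refine ⟨?_, fun z l hl => ?_⟩
    · simp only [List.ofFn_zero, pri]
      exact continuous_const
    · rw [List.length_eq_zero_iff.1 hl]
      simp [pri]
  | succ k ih =>
    intro Z _ _ Φ h M hM
    obtain ⟨h1, h2⟩ := ih (Z × X) _ h.cons M
      (fun z l hl => hM z.1 (z.2 :: l) (by simp [hl]))
    obtain ⟨h3, h4⟩ := tens_joint hT (k + 1) (Z × X) _ h.cons M
      (fun z l hl => hM z.1 (z.2 :: l) (by simp [hl]))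
    have c1 : Continuous fun p : Z × (Fin (k + 1) → X) => Fin.tail p.2 :=
      continuous_pi fun i => (continuous_apply i.succ).comp continuous_snd
    have c2 : Continuous fun p : Z × (Fin (k + 1) → X) => (p.1, p.2 0) :=
      continuous_fst.prodMk ((continuous_apply 0).comp continuous_snd)
    refine ⟨?_, fun z l hl => ?_⟩
    · refine ((h3.comp (c2.prodMk continuous_snd)).sub (h1.comp (c2.prodMk c1))).congr
        fun p => ?_
      have e : List.ofFn p.2 = p.2 0 :: List.ofFn (Fin.tail p.2) := List.ofFn_succ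
      show BCR.tens T (fun m => Φ p.1 (p.2 0 :: m)) (List.ofFn p.2) -
        BCR.pri T (fun m => Φ p.1 (p.2 0 :: m)) (List.ofFn (Fin.tail p.2)) =
        BCR.pri T (Φ p.1) (List.ofFn p.2)
      rw [e]
      rfl
    · rcases l with _ | ⟨x, l⟩
      · simp at hl
      · have e1 := h4 (z, x) (x :: l) hl
        have e2 := h2 (z, x) l (by simpa using hl)
        have e3 : pri T (Φ z) (x :: l) = BCR.tens T (fun m => Φ z (x :: m)) (x :: l) -
          pri T (fun m => Φ z (x :: m)) l := rfl
        rw [e3]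
        refine (abs_sub _ _).trans ((add_le_add e1 e2).trans (le_of_eq ?_))
        push_cast
        ring

theorem JC.pri [FirstCountableTopology X] (hT : Mk X T) {Z : Type} [TopologicalSpace Z]
    [FirstCountableTopology Z] {Φ : Z → List X → ℝ} (h : JC Φ) (hb : JB Φ) :
    JC (fun z => BCR.pri T (Φ z)) := by
  intro k
  obtain ⟨M, hM⟩ := hb (k + 1)
  exact (pri_joint hT k Z Φ h M hM).1

theorem LC.pri [FirstCountableTopology X] (hT : Mk X T) {Φ : List X → ℝ} (h : LC Φ)
    (hb : LB Φ) : LC (BCR.pri T Φ) := (h.JC.pri hT hb.JB).LC ()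

theorem pri_abs_le [FirstCountableTopology X] (hT : Mk X T) {Φ : List X → ℝ} (h : LC Φ)
    {M : ℝ} {l : List X} (hM : ∀ m : List X, |Φ m| ≤ M) :
    |pri T Φ l| ≤ l.length * M :=
  (pri_joint hT l.length Unit (fun _ => Φ) h.JC M (fun _ m _ => hM m)).2 () l rfl

/-- The linear structure of a Feller operator. -/
theorem Mk.lin [FirstCountableTopology X] (hT : Mk X T) :
    Lin T (fun f => Continuous f ∧ ∃ M : ℝ, ∀ x, |f x| ≤ M) (fun Φ => LC Φ ∧ LB Φ) where
  const := hT.const
  Qconst := fun c => ⟨continuous_const, |c|, fun _ => le_rfl⟩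
  Qadd := by
    rintro f g ⟨hf, M, hM⟩ ⟨hg, M', hM'⟩
    exact ⟨hf.add hg, M + M', fun x => (abs_add_le _ _).trans (add_le_add (hM x) (hM' x))⟩
  Qsmul := by
    rintro c f ⟨hf, M, hM⟩
    refine ⟨continuous_const.mul hf, |c| * M, fun x => ?_⟩
    rw [abs_mul]
    exact mul_le_mul_of_nonneg_left (hM x) (abs_nonneg c)
  add := by
    rintro f g ⟨hf, M, hM⟩ ⟨hg, M', hM'⟩ x
    exact hT.add f g (max M M') hf hg (fun x => (hM x).trans (le_max_left _ _))
      (fun x => (hM' x).trans (le_max_right _ _)) x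
  smul := by
    rintro c f ⟨hf, M, hM⟩ x
    exact hT.smul c f M hf hM x
  cons := fun Φ h x => ⟨h.1.cons x, h.2.cons x⟩
  sub := fun Φ Ψ h h' => ⟨h.1.sub h'.1, h.2.sub h'.2⟩
  dl := fun Φ h => ⟨h.1.dl, h.2.dl⟩
  mem := by
    rintro Φ ⟨h, hb⟩ l
    obtain ⟨M, hM⟩ := hb.JB.cons l.length
    obtain ⟨v, hv⟩ := exists_ofFn l rfl
    have h1 := tens_joint hT l.length (Unit × X) _ h.JC.cons M hM
    refine ⟨?_, M, fun y => h1.2 ((), y) l rfl⟩
    have h2 := h1.1.comp (f := fun y : X => (((), y), v))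
      ((continuous_const.prodMk continuous_id).prodMk continuous_const)
    refine h2.congr fun y => ?_
    simp only [Function.comp]
    rw [hv]

/-- `tens` and the action of a map commuting with `T`. -/
theorem tens_map [FirstCountableTopology X] (hT : Mk X T) (a : X → X)
    (ha : ∀ (f : X → ℝ) (M : ℝ), Continuous f → (∀ x, |f x| ≤ M) →
      ∀ x, T (fun y => f (a y)) x = T f (a x)) (l : List X) :
    ∀ (Φ : List X → ℝ), LC Φ → LB Φ → BCR.tens T (fun m => Φ (m.map a)) l =
      BCR.tens T Φ (l.map a) := by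
  induction l with
  | nil => intro Φ _ _; rfl
  | cons x l ih =>
    intro Φ h hb
    simp only [BCR.tens, List.map_cons]
    have h1 : (fun y => BCR.tens T (fun m => Φ (a y :: m.map a)) l) =
        fun y => (fun w => BCR.tens T (fun m => Φ (w :: m)) (l.map a)) (a y) := by
      funext y
      exact ih (fun m => Φ (a y :: m)) (h.cons _) (hb.cons _)
    rw [h1]
    obtain ⟨hc, M, hM⟩ := (Mk.lin hT).mem Φ ⟨h, hb⟩ (l.map a)
    exact ha _ M hc hM x

theorem pri_map [FirstCountableTopology X] (hT : Mk X T) (a : X → X)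
    (ha : ∀ (f : X → ℝ) (M : ℝ), Continuous f → (∀ x, |f x| ≤ M) →
      ∀ x, T (fun y => f (a y)) x = T f (a x)) (l : List X) :
    ∀ (Φ : List X → ℝ), LC Φ → LB Φ → BCR.pri T (fun m => Φ (m.map a)) l =
      BCR.pri T Φ (l.map a) := by
  induction l with
  | nil => intro Φ _ _; rfl
  | cons x l ih =>
    intro Φ h hb
    have e1 := ih (fun m => Φ (a x :: m)) (h.cons _) (hb.cons _)
    have e2 := tens_map hT a ha (x :: l) (fun m => Φ (a x :: m)) (h.cons _) (hb.cons _)
    simp only [BCR.pri, List.map_cons] at e1 e2 ⊢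
    rw [e1, e2]

/-- The prism identity for a cochain with `dl Φ = 0`. -/
theorem prism_of_dl_eq_zero [FirstCountableTopology X] (hT : Mk X T) {Φ : List X → ℝ}
    (h : LC Φ) (hb : LB Φ) (hd : ∀ l, Helper11.BC.dl Φ l = 0) (l : List X) :
    Helper11.BC.dl (BCR.pri T Φ) l = BCR.tens T Φ l - Φ l := by
  have h1 := (Mk.lin hT).prism l Φ ⟨h, hb⟩
  have h2 : ∀ (l : List X), BCR.tens T (fun _ => (0 : ℝ)) l = 0 := by
    intro l
    induction l with
    | nil => rfl
    | cons x l ih =>
      simp only [BCR.tens]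
      simp only [ih]
      exact hT.const 0 x
  have h3 : ∀ (l : List X), BCR.pri T (fun _ => (0 : ℝ)) l = 0 := by
    intro l
    induction l with
    | nil => rfl
    | cons x l ih =>
      simp only [BCR.pri]
      rw [ih, h2, sub_zero]
  have h4 : Helper11.BC.dl Φ = fun _ => 0 := funext hd
  rw [h4, h3, add_zero] at h1
  exact h1

/-! ### Strong Feller operators -/

theorem SMk.mk' (hT : SMk X T) : Mk X T where
  const := hT.const
  add := fun f g M _ _ h h' => hT.add f g M h h'
  smul := fun c f M _ h => hT.smul c f M h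
  bdd := fun f M _ h => hT.bdd f M h
  cont := fun Z _ _ f M hc h => hT.cont Z f M
    (fun x => hc.comp (continuous_id.prodMk continuous_const)) h

theorem stens_joint [FirstCountableTopology X] (hT : SMk X T) (k : ℕ) : ∀ (Z : Type)
    [TopologicalSpace Z] [FirstCountableTopology Z]
    (Φ : Z → List X → ℝ), (∀ l, Continuous fun z => Φ z l) →
    ∀ M : ℝ, (∀ z l, l.length = k → |Φ z l| ≤ M) →
    (Continuous fun p : Z × (Fin k → X) => tens T (Φ p.1) (List.ofFn p.2)) ∧
    ∀ z l, l.length = k → |tens T (Φ z) l| ≤ M := by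
  induction k with
  | zero =>
    intro Z _ _ Φ h M hM
    refine ⟨?_, fun z l hl => ?_⟩
    · refine ((h []).comp continuous_fst).congr fun p => ?_
      simp [tens]
    · rw [List.length_eq_zero_iff.1 hl]
      exact hM z [] rfl
  | succ k ih =>
    intro Z _ _ Φ h M hM
    let f : Z × (Fin k → X) → X → ℝ := fun q y =>
      tens T (fun m => Φ q.1 (y :: m)) (List.ofFn q.2)
    have h1 := fun y : X => ih Z (fun z m => Φ z (y :: m)) (fun l => h (y :: l)) M
      (fun z l hl => hM z (y :: l) (by simp [hl]))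
    have hfM : ∀ q y, |f q y| ≤ M := fun q y => (h1 y).2 q.1 _ (by simp)
    have h4 := hT.cont (Z × (Fin k → X)) f M (fun y => (h1 y).1) hfM
    refine ⟨?_, fun z l hl => ?_⟩
    · have h5 : Continuous fun p : Z × (Fin (k + 1) → X) =>
          (((p.1, Fin.tail p.2), p.2 0) : (Z × (Fin k → X)) × X) := by
        refine (continuous_fst.prodMk ?_).prodMk ((continuous_apply 0).comp continuous_snd)
        exact continuous_pi fun i => (continuous_apply i.succ).comp continuous_snd
      refine (h4.comp h5).congr fun p => ?_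
      rw [List.ofFn_succ]
      rfl
    · rcases l with _ | ⟨x, l⟩
      · simp at hl
      · obtain ⟨v, rfl⟩ := exists_ofFn l (k := k) (by simpa using hl)
        exact hT.bdd (f (z, v)) M (hfM (z, v)) x

/-- `tens` of an arbitrary bounded function is continuous. -/
theorem LC_stens [FirstCountableTopology X] (hT : SMk X T) {Φ : List X → ℝ} (hb : LB Φ) :
    LC (BCR.tens T Φ) := by
  intro k
  obtain ⟨M, hM⟩ := hb k
  have h1 := (stens_joint hT k Unit (fun _ => Φ) (fun _ => continuous_const) M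
    (fun _ => hM)).1
  have h2 : Continuous fun v : Fin k → X => (((), v) : Unit × (Fin k → X)) :=
    continuous_const.prodMk continuous_id
  exact h1.comp h2

theorem stens_abs_le [FirstCountableTopology X] (hT : SMk X T) {Φ : List X → ℝ}
    {M : ℝ} (hM : ∀ m : List X, |Φ m| ≤ M) (l : List X) :
    |tens T Φ l| ≤ M :=
  (stens_joint hT l.length Unit (fun _ => Φ) (fun _ => continuous_const) M
    (fun _ m _ => hM m)).2 () l rfl

/-- The linear structure of a strong Feller operator. -/
theorem SMk.lin [FirstCountableTopology X] (hT : SMk X T) :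
    Lin T (fun f => ∃ M : ℝ, ∀ x, |f x| ≤ M) (fun Φ => LB Φ) where
  const := hT.const
  Qconst := fun c => ⟨|c|, fun _ => le_rfl⟩
  Qadd := by
    rintro f g ⟨M, hM⟩ ⟨M', hM'⟩
    exact ⟨M + M', fun x => (abs_add_le _ _).trans (add_le_add (hM x) (hM' x))⟩
  Qsmul := by
    rintro c f ⟨M, hM⟩
    refine ⟨|c| * M, fun x => ?_⟩
    rw [abs_mul]
    exact mul_le_mul_of_nonneg_left (hM x) (abs_nonneg c)
  add := by
    rintro f g ⟨M, hM⟩ ⟨M', hM'⟩ x
    exact hT.add f g (max M M') (fun x => (hM x).trans (le_max_left _ _))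
      (fun x => (hM' x).trans (le_max_right _ _)) x
  smul := by
    rintro c f ⟨M, hM⟩ x
    exact hT.smul c f M hM x
  cons := fun Φ h x => h.cons x
  sub := fun Φ Ψ h h' => h.sub h'
  dl := fun Φ h => h.dl
  mem := by
    rintro Φ hb l
    obtain ⟨M, hM⟩ := hb (l.length + 1)
    refine ⟨M, fun y => ?_⟩
    exact (stens_joint hT l.length Unit (fun _ m => Φ (y :: m)) (fun _ => continuous_const) M
      (fun _ m hm => hM _ (by simp [hm]))).2 () l rfl

theorem stens_map [FirstCountableTopology X] (a : X → X)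
    (ha : ∀ (f : X → ℝ) (x : X), T (fun y => f (a y)) x = T f (a x)) (l : List X) :
    ∀ (Φ : List X → ℝ), BCR.tens T (fun m => Φ (m.map a)) l =
      BCR.tens T Φ (l.map a) := by
  induction l with
  | nil => intro Φ; rfl
  | cons x l ih =>
    intro Φ
    simp only [BCR.tens, List.map_cons]
    have h1 : (fun y => BCR.tens T (fun m => Φ (a y :: m.map a)) l) =
        fun y => (fun w => BCR.tens T (fun m => Φ (w :: m)) (l.map a)) (a y) := by
      funext y
      exact ih (fun m => Φ (a y :: m))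
    rw [h1]
    exact ha (fun w => BCR.tens T (fun m => Φ (w :: m)) (l.map a)) x

theorem tens_congr_length (l : List X) : ∀ (Φ Ψ : List X → ℝ),
    (∀ m : List X, m.length = l.length → Φ m = Ψ m) → BCR.tens T Φ l = BCR.tens T Ψ l := by
  induction l with
  | nil => intro Φ Ψ h; exact h [] rfl
  | cons x l ih =>
    intro Φ Ψ h
    simp only [BCR.tens]
    have : (fun y => BCR.tens T (fun m => Φ (y :: m)) l) =
        fun y => BCR.tens T (fun m => Ψ (y :: m)) l := by
      funext y
      exact ih _ _ fun m hm => h (y :: m) (by simp [hm])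
    rw [this]

end

end Pool.Agent.Helper87.BCR
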