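import Pool.Agent.Helper11.BC.Defs

/-!
# Project BC, block RED: operators on functions on lists

`tens T Φ` applies the operator `T` in every variable, `pri T Φ` is the prism homotopy.
-/

open scoped MatrixGroups UpperHalfPlane Topology

namespace Pool.Agent.Helper87.BCR
open Pool.Agent.Helper11.BC

section alg

variable {X : Type}

/-- The operator `T` applied in every variable. -/
def tens (T : (X → ℝ) → X → ℝ) : (List X → ℝ) → List X → ℝ
  | Φ, [] => Φ []
  | Φ, x :: l => T (fun y => tens T (fun m => Φ (y :: m)) l) x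

/-- The prism homotopy between the identity and `tens T`. -/
def pri (T : (X → ℝ) → X → ℝ) : (List X → ℝ) → List X → ℝ
  | _, [] => 0
  | Φ, x :: l => tens T (fun m => Φ (x :: m)) (x :: l) - pri T (fun m => Φ (x :: m)) l

theorem dl_nil (Φ : List X → ℝ) : dl Φ [] = 0 := by
  simp [dl]

theorem dl_cons (Φ : List X → ℝ) (x : X) (l : List X) :
    dl Φ (x :: l) = Φ l - dl (fun m => Φ (x :: m)) l := by
  unfold dl
  rw [List.length_cons, Finset.sum_range_succ', sub_eq_add_neg, add_comm, ← Finset.sum_neg_distrib]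
  congr 1
  · simp
  · refine Finset.sum_congr rfl fun i _ => ?_
    rw [List.eraseIdx_cons_succ, pow_succ]
    simp

theorem dl_sub (Φ Ψ : List X → ℝ) (l : List X) :
    dl (fun m => Φ m - Ψ m) l = dl Φ l - dl Ψ l := by
  unfold dl
  rw [← Finset.sum_sub_distrib]
  refine Finset.sum_congr rfl fun i _ => ?_
  simp [mul_sub]

/-- A class `A` of functions on lists and a class `Q` of functions on which `T` is linear. -/
structure Lin (T : (X → ℝ) → X → ℝ) (Q : (X → ℝ) → Prop) (A : (List X → ℝ) → Prop) : Prop where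
  const : ∀ (c : ℝ) x, T (fun _ => c) x = c
  Qconst : ∀ c : ℝ, Q fun _ => c
  Qadd : ∀ f g, Q f → Q g → Q fun y => f y + g y
  Qsmul : ∀ (c : ℝ) f, Q f → Q fun y => c * f y
  add : ∀ f g, Q f → Q g → ∀ x, T (fun y => f y + g y) x = T f x + T g x
  smul : ∀ (c : ℝ) f, Q f → ∀ x, T (fun y => c * f y) x = c * T f x
  cons : ∀ Φ, A Φ → ∀ x, A fun l => Φ (x :: l)
  sub : ∀ Φ Ψ, A Φ → A Ψ → A fun l => Φ l - Ψ l
  dl : ∀ Φ, A Φ → A (dl Φ)
  mem : ∀ Φ, A Φ → ∀ l, Q fun y => tens T (fun m => Φ (y :: m)) l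

variable {T : (X → ℝ) → X → ℝ} {Q : (X → ℝ) → Prop} {A : (List X → ℝ) → Prop}

theorem Lin.T_sub (h : Lin T Q A) {f g : X → ℝ} (hf : Q f) (hg : Q g) (x : X) :
    T (fun y => f y - g y) x = T f x - T g x := by
  have h1 : (fun y => f y - g y) = fun y => f y + (-1) * g y := by
    funext y; ring
  rw [h1, h.add _ _ hf (h.Qsmul _ _ hg), h.smul _ _ hg]
  ring

theorem Lin.Q_sub (h : Lin T Q A) {f g : X → ℝ} (hf : Q f) (hg : Q g) :
    Q (fun y => f y - g y) := by
  have h1 : (fun y => f y - g y) = fun y => f y + (-1) * g y := by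
    funext y; ring
  rw [h1]
  exact h.Qadd _ _ hf (h.Qsmul _ _ hg)

theorem Lin.T_sum (h : Lin T Q A) {ι : Type} (s : Finset ι) (a : ι → ℝ) (f : ι → X → ℝ)
    (hf : ∀ i, Q (f i)) (x : X) :
    Q (fun y => ∑ i ∈ s, a i * f i y) ∧
    T (fun y => ∑ i ∈ s, a i * f i y) x = ∑ i ∈ s, a i * T (f i) x := by
  classical
  induction s using Finset.induction_on with
  | empty => simpa using ⟨h.Qconst 0, h.const 0 x⟩
  | insert i s hi ih =>
    have h1 : (fun y => ∑ j ∈ insert i s, a j * f j y) =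
        fun y => a i * f i y + ∑ j ∈ s, a j * f j y := by
      funext y; rw [Finset.sum_insert hi]
    rw [h1, Finset.sum_insert hi]
    exact ⟨h.Qadd _ _ (h.Qsmul _ _ (hf i)) ih.1,
      by rw [h.add _ _ (h.Qsmul _ _ (hf i)) ih.1, h.smul _ _ (hf i), ih.2]⟩

theorem Lin.tens_sub (h : Lin T Q A) (l : List X) : ∀ (Φ Ψ : List X → ℝ), A Φ → A Ψ →
    tens T (fun m => Φ m - Ψ m) l = tens T Φ l - tens T Ψ l := by
  induction l with
  | nil => intro Φ Ψ _ _; simp [tens]
  | cons x l ih =>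
    intro Φ Ψ hΦ hΨ
    simp only [tens]
    have h1 : (fun y => tens T (fun m => Φ (y :: m) - Ψ (y :: m)) l) =
        fun y => tens T (fun m => Φ (y :: m)) l - tens T (fun m => Ψ (y :: m)) l := by
      funext y
      exact ih _ _ (h.cons _ hΦ y) (h.cons _ hΨ y)
    rw [h1, h.T_sub (h.mem Φ hΦ l) (h.mem Ψ hΨ l)]

theorem Lin.pri_sub (h : Lin T Q A) (l : List X) : ∀ (Φ Ψ : List X → ℝ), A Φ → A Ψ →
    pri T (fun m => Φ m - Ψ m) l = pri T Φ l - pri T Ψ l := by
  induction l with
  | nil => intro Φ Ψ _ _; simp [pri]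
  | cons x l ih =>
    intro Φ Ψ hΦ hΨ
    simp only [pri]
    rw [h.tens_sub (x :: l) _ _ (h.cons _ hΦ x) (h.cons _ hΨ x),
      ih _ _ (h.cons _ hΦ x) (h.cons _ hΨ x)]
    ring

theorem Lin.T_dl (h : Lin T Q A) (Φ : List X → ℝ) (hΦ : A Φ) (l : List X) (x : X) :
    Q (fun y => Helper11.BC.dl (tens T fun m => Φ (y :: m)) l) ∧
    T (fun y => Helper11.BC.dl (tens T fun m => Φ (y :: m)) l) x =
      Helper11.BC.dl (fun m => T (fun y => tens T (fun k => Φ (y :: k)) m) x) l := by
  unfold Helper11.BC.dl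
  simp only [smul_eq_mul]
  exact h.T_sum (Finset.range l.length) (fun i => (-1) ^ i)
    (fun i y => tens T (fun m => Φ (y :: m)) (l.eraseIdx i)) (fun i => h.mem Φ hΦ _) x

theorem Lin.tens_dl (h : Lin T Q A) (l : List X) : ∀ (Φ : List X → ℝ), A Φ →
    tens T (Helper11.BC.dl Φ) l = Helper11.BC.dl (tens T Φ) l := by
  induction l with
  | nil => intro Φ _; simp [tens, dl_nil]
  | cons x l ih =>
    intro Φ hΦ
    rw [dl_cons]
    simp only [tens]
    have h1 : (fun y => tens T (fun m => Helper11.BC.dl Φ (y :: m)) l) =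
        fun y => tens T Φ l - Helper11.BC.dl (tens T fun m => Φ (y :: m)) l := by
      funext y
      have h2 : (fun m => Helper11.BC.dl Φ (y :: m)) =
          fun m => Φ m - Helper11.BC.dl (fun k => Φ (y :: k)) m := by
        funext m; exact dl_cons Φ y m
      rw [h2, h.tens_sub l _ _ hΦ (h.dl _ (h.cons _ hΦ y)), ih _ (h.cons _ hΦ y)]
    rw [h1, h.T_sub (h.Qconst _) (h.T_dl Φ hΦ l x).1, h.const, (h.T_dl Φ hΦ l x).2]

/-- The prism identity. -/
theorem Lin.prism (h : Lin T Q A) (l : List X) : ∀ (Φ : List X → ℝ), A Φ →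
    Helper11.BC.dl (pri T Φ) l + pri T (Helper11.BC.dl Φ) l = tens T Φ l - Φ l := by
  induction l with
  | nil => intro Φ _; simp [tens, pri, dl_nil]
  | cons x l ih =>
    intro Φ hΦ
    have hx := h.cons _ hΦ x
    have h2 : (fun m => Helper11.BC.dl Φ (x :: m)) =
        fun m => Φ m - Helper11.BC.dl (fun k => Φ (x :: k)) m := by
      funext m; exact dl_cons Φ x m
    have h3 : (fun m => pri T Φ (x :: m)) =
        fun m => tens T (fun k => Φ (x :: k)) (x :: m) - pri T (fun k => Φ (x :: k)) m := by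
      funext m; rfl
    have e1 : Helper11.BC.dl (pri T Φ) (x :: l) = pri T Φ l -
        (Helper11.BC.dl (fun m => tens T (fun k => Φ (x :: k)) (x :: m)) l -
          Helper11.BC.dl (pri T fun k => Φ (x :: k)) l) := by
      rw [dl_cons, h3, dl_sub]
    have e2 : pri T (Helper11.BC.dl Φ) (x :: l) =
        (tens T Φ (x :: l) - tens T (Helper11.BC.dl fun k => Φ (x :: k)) (x :: l)) -
          (pri T Φ l - pri T (Helper11.BC.dl fun k => Φ (x :: k)) l) := by
      have : pri T (Helper11.BC.dl Φ) (x :: l) =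
        tens T (fun m => Helper11.BC.dl Φ (x :: m)) (x :: l) -
          pri T (fun m => Helper11.BC.dl Φ (x :: m)) l := rfl
      rw [this, h2, h.tens_sub _ _ _ hΦ (h.dl _ hx), h.pri_sub _ _ _ hΦ (h.dl _ hx)]
    have e3 : tens T (Helper11.BC.dl fun k => Φ (x :: k)) (x :: l) =
        tens T (fun k => Φ (x :: k)) l -
          Helper11.BC.dl (fun m => tens T (fun k => Φ (x :: k)) (x :: m)) l := by
      rw [h.tens_dl _ _ hx, dl_cons]
    have := ih _ hx
    rw [e1, e2, e3]
    linarith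

end alg

end Pool.Agent.Helper87.BCR
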