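import Pool.Agent.Helper87.BCR.Basic

/-!
# Project BC, block RED: tuples and lists (piece BC-RED-CONV)

* `exists_list`: `B l = b (fun j => l.getD j 1)` if `l.length = N + 2`, and `0` otherwise.
  `LC B`: for `k = N + 2` the function `v ↦ B (List.ofFn v)` is `b`; otherwise it is `0`.
  `dl B l`: if `l.length ≠ N + 3` all faces have length `≠ N + 2` (for `l = []` the sum is empty);
  if `l.length = N + 3` put `x j = l.getD j 1`; the `i`-th face is
  `List.ofFn fun j => x (Fin.succAbove i j)` and the sum is `hz x` (`Finset.sum_range`).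
* `dl_ofFn`: `(List.ofFn x).eraseIdx i = List.ofFn fun j => x (Fin.succAbove i j)`
  (`List.ext_getElem`, `List.getElem_eraseIdx`, `Fin.succAbove`), `Finset.sum_range`.
-/

open scoped MatrixGroups UpperHalfPlane Topology
open MeasureTheory

namespace Pool.Agent.Helper87.BCR
open Pool.Agent.Helper11.BC

private lemma conv_erase {n : ℕ} (x : Fin (n + 1) → G) (i : Fin (n + 1)) :
    (List.ofFn x).eraseIdx i = List.ofFn fun j : Fin n => x (Fin.succAbove i j) := by
  apply List.ext_getElem
  · rw [List.length_eraseIdx_of_lt (by rw [List.length_ofFn]; exact i.2), List.length_ofFn,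
      List.length_ofFn]
    simp
  · intro m h1 h2
    rw [List.length_ofFn] at h2
    rw [List.getElem_eraseIdx]
    by_cases hm : m < (i : ℕ)
    · rw [dif_pos hm, List.getElem_ofFn, List.getElem_ofFn]
      congr 1
      rw [Fin.succAbove_of_castSucc_lt _ _ (by simpa [Fin.lt_def] using hm)]
      rfl
    · rw [dif_neg hm, List.getElem_ofFn, List.getElem_ofFn]
      congr 1
      rw [Fin.succAbove_of_le_castSucc _ _ (by simpa [Fin.le_def] using hm)]
      rfl

theorem dl_ofFn {n : ℕ} (h : List G → ℝ) (x : Fin (n + 1) → G) :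
    dl h (List.ofFn x) =
      ∑ i : Fin (n + 1), (-1 : ℝ) ^ (i : ℕ) * h (List.ofFn fun j : Fin n => x (Fin.succAbove i j)) := by
  unfold dl
  rw [List.length_ofFn, Finset.sum_range]
  refine Finset.sum_congr rfl fun i _ => ?_
  rw [conv_erase, smul_eq_mul]

private lemma conv_getD {k : ℕ} (x : Fin k → G) :
    (fun j : Fin k => (List.ofFn x).getD (j : ℕ) 1) = x := by
  funext j
  rw [List.getD_eq_getElem _ _ (by simp)]
  simp

private lemma conv_exists {k : ℕ} (l : List G) (h : l.length = k) :
    ∃ x : Fin k → G, l = List.ofFn x := by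
  subst h
  exact ⟨fun j => l[j], by simp⟩

theorem exists_list {N : ℕ} (b : (Fin (N + 2) → G) → ℝ) (hc : Continuous b)
    (hi : ∀ (g : G) (x : Fin (N + 2) → G), b (fun j => g * x j) = b x)
    (C : ℝ) (hC : 0 ≤ C) (hb : ∀ x, |b x| ≤ C)
    (hz : ∀ x : Fin (N + 3) → G,
      ∑ i : Fin (N + 3), (-1 : ℝ) ^ (i : ℕ) * b (fun j => x (Fin.succAbove i j)) = 0) :
    ∃ B : List G → ℝ, LC B ∧ (∀ l, |B l| ≤ C) ∧ (∀ (g : G) l, B (l.map (g * ·)) = B l) ∧
      (∀ l, dl B l = 0) ∧ ∀ x : Fin (N + 2) → G, B (List.ofFn x) = b x := by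
  set B : List G → ℝ := fun l =>
    if l.length = N + 2 then b (fun j : Fin (N + 2) => l.getD (j : ℕ) 1) else 0 with hB
  have hof : ∀ x : Fin (N + 2) → G, B (List.ofFn x) = b x := by
    intro x
    rw [hB]
    simp only [List.length_ofFn, if_true]
    rw [conv_getD]
  have hne : ∀ l : List G, l.length ≠ N + 2 → B l = 0 := by
    intro l hl
    rw [hB]
    simp only
    rw [if_neg hl]
  refine ⟨B, ?_, ?_, ?_, ?_, hof⟩
  · intro k
    by_cases hk : k = N + 2
    · subst hk
      simp_rw [hof]
      exact hc
    · have : (fun v : Fin k → G => B (List.ofFn v)) = fun _ => 0 := by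
        funext v
        exact hne _ (by rw [List.length_ofFn]; exact hk)
      rw [this]
      exact continuous_const
  · intro l
    by_cases hl : l.length = N + 2
    · obtain ⟨x, rfl⟩ := conv_exists l hl
      rw [hof]
      exact hb x
    · rw [hne l hl, abs_zero]
      exact hC
  · intro g l
    by_cases hl : l.length = N + 2
    · obtain ⟨x, rfl⟩ := conv_exists l hl
      rw [List.map_ofFn, hof, hof]
      exact hi g x
    · rw [hne l hl, hne _ (by rw [List.length_map]; exact hl)]
  · intro l
    by_cases hl : l.length = N + 3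
    · obtain ⟨x, rfl⟩ := conv_exists l hl
      rw [dl_ofFn]
      simp_rw [hof]
      exact hz x
    · unfold dl
      refine Finset.sum_eq_zero fun i hi' => ?_
      rw [Finset.mem_range] at hi'
      rw [hne, smul_zero]
      rw [List.length_eraseIdx_of_lt hi']
      omega

end Pool.Agent.Helper87.BCR
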