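import Pool.Agent.Helper87.BCR.Basic

/-!
# Project BC, block RED: the average over the rotations (piece BC-RED-KAV)

Proofs.
* `continuous_kk`: `continuous_induced_rng` (the topology of `G` is induced by `Subtype.val`) and
  `continuous_matrix`, entries `cos`, `sin`.  Helper: `Continuous fun p : G × ℝ => p.1 * kk p.2`.
* `kk_add`: addition formulas; `kk_two_pi : kk (θ + 2π) = kk θ`.
* `T1_kk`: `g * kk α * kk θ = g * kk (α + θ)`, and the integral of a `2π`-periodic function over an
  interval of length `2π` does not depend on the interval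
  (`Function.Periodic.intervalIntegral_add_eq`, `intervalIntegral.integral_comp_add_left`).
* `T1_left`: `(h * g) * kk θ = h * (g * kk θ)`.
* `exists_kk`: `u = g⁻¹ * h` fixes `I`: `u • I = I`.  With `u = !![a, b; c, d]`:
  `a i + b = i (c i + d)` gives `a = d`, `b = -c`, and `a² + c² = det u = 1`, so there is `α` with
  `a = cos α`, `c = sin α` (for example `α = Complex.arg ⟨a, c⟩`, `Complex.cos_arg`,
  `Complex.sin_arg`, or any lemma of Mathlib on `x² + y² = 1`).
* `not_sameEnd_kk`: with `u = h⁻¹ * g = !![a, b; c, d]` the entry `(u * kk θ) 1 0` is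
  `c cos θ + d sin θ`, and `(c, d) ≠ (0, 0)` since `det u = 1`.  If `c ≠ 0` it is nonzero near
  `θ = 0` by continuity; if `c = 0` it is `d sin θ` with `d ≠ 0`, nonzero for `0 < |θ| < π`.
* `mk_T1`: linearity and bound of interval integrals of continuous functions; `cont`:
  `intervalIntegral.continuous_parametric_intervalIntegral_of_continuous'` (with the parameter
  space `Z × G`, integrand `fun p θ => f p.1 (p.2 * kk θ)`).
-/

open scoped MatrixGroups UpperHalfPlane Topology
open MeasureTheory

namespace Pool.Agent.Helper87.BCR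
open Pool.Agent.Helper11.BC

theorem continuous_kk : Continuous kk := by
  refine continuous_induced_rng.2 ?_
  refine continuous_matrix fun i j => ?_
  fin_cases i <;> fin_cases j <;> simp [kk] <;> fun_prop

private theorem continuous_mul_kk : Continuous fun p : G × ℝ => p.1 * kk p.2 :=
  continuous_fst.mul (continuous_kk.comp continuous_snd)

theorem kk_zero : kk 0 = 1 := by
  apply Subtype.ext
  ext i j
  fin_cases i <;> fin_cases j <;> simp [kk]

theorem kk_add (α θ : ℝ) : kk (α + θ) = kk α * kk θ := by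
  apply Subtype.ext
  ext i j
  fin_cases i <;> fin_cases j <;>
    simp [kk, Real.cos_add, Real.sin_add, Matrix.mul_apply, Fin.sum_univ_two] <;> ring

private theorem kk_two_pi (θ : ℝ) : kk (θ + 2 * Real.pi) = kk θ := by
  apply Subtype.ext
  ext i j
  fin_cases i <;> fin_cases j <;> simp [kk]

theorem T1_kk (f : G → ℝ) (hf : Continuous f) (g : G) (α : ℝ) : T1 f (g * kk α) = T1 f g := by
  unfold T1
  congr 1
  have h1 : ∀ θ, f (g * kk α * kk θ) = (fun θ => f (g * kk θ)) (α + θ) := by
    intro θ
    simp only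
    rw [kk_add, mul_assoc]
  simp_rw [h1]
  rw [intervalIntegral.integral_comp_add_left (fun θ => f (g * kk θ))]
  have hp : Function.Periodic (fun θ => f (g * kk θ)) (2 * Real.pi) := by
    intro θ
    simp only
    rw [kk_two_pi]
  have := hp.intervalIntegral_add_eq α 0
  simp only [zero_add, add_zero] at this ⊢
  exact this

theorem T1_left (f : G → ℝ) (h g : G) : T1 (fun x => f (h * x)) g = T1 f (h * g) := by
  unfold T1
  congr 1
  apply intervalIntegral.integral_congr
  intro θ _
  simp only
  rw [mul_assoc]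

/-- A matrix fixing the point `i` is a rotation. -/
private theorem exists_kk_aux (u : G) (hu : u • UpperHalfPlane.I = UpperHalfPlane.I) :
    ∃ α : ℝ, u = kk α := by
  have hdet : u 0 0 * u 1 1 - u 0 1 * u 1 0 = 1 := by
    have := u.det_coe
    rw [Matrix.det_fin_two] at this
    exact this
  have h1 := congrArg (fun z : ℍ => (z : ℂ)) hu
  simp only [UpperHalfPlane.coe_specialLinearGroup_apply, UpperHalfPlane.coe_I] at h1
  have hne : ((u 1 0 : ℝ) : ℂ) * Complex.I + ((u 1 1 : ℝ) : ℂ) ≠ 0 := by
    intro h0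
    have hre := congrArg Complex.re h0
    have him := congrArg Complex.im h0
    simp at hre him
    rw [hre, him] at hdet
    simp at hdet
  simp only [Algebra.algebraMap_self, RingHom.id_apply] at h1
  rw [div_eq_iff hne] at h1
  have hre := congrArg Complex.re h1
  have him := congrArg Complex.im h1
  simp at hre him
  -- `a = d`, `b = -c`
  have hsq : (u 0 0) ^ 2 + (u 1 0) ^ 2 = 1 := by
    rw [hre] at hdet
    rw [← him] at hdet
    nlinarith
  set w : ℂ := ⟨u 0 0, u 1 0⟩ with hw
  have hnw : ‖w‖ = 1 := by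
    rw [Complex.norm_def, Complex.normSq_apply, hw]
    simp only
    rw [show u 0 0 * u 0 0 + u 1 0 * u 1 0 = 1 by nlinarith]
    exact Real.sqrt_one
  have hw0 : w ≠ 0 := by
    intro h0
    rw [h0] at hnw
    simp at hnw
  refine ⟨Complex.arg w, ?_⟩
  have hc : Real.cos (Complex.arg w) = u 0 0 := by
    rw [Complex.cos_arg hw0, hnw, hw]
    simp
  have hs : Real.sin (Complex.arg w) = u 1 0 := by
    rw [Complex.sin_arg, hnw, hw]
    simp
  apply Subtype.ext
  ext i j
  fin_cases i <;> fin_cases j
  · simpa [kk] using hc.symm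
  · simp only [kk]
    simpa [hs] using hre
  · simpa [kk] using hs.symm
  · simp only [kk]
    simpa [hc] using him.symm

theorem exists_kk (g h : G) (hgh : pos g = pos h) : ∃ α : ℝ, h = g * kk α := by
  obtain ⟨α, hα⟩ := exists_kk_aux (g⁻¹ * h) (by
    unfold pos at hgh
    rw [mul_smul, ← hgh, inv_smul_smul])
  exact ⟨α, by rw [← hα, mul_inv_cancel_left]⟩

theorem not_sameEnd_kk (g h : G) : ∀ᶠ θ in 𝓝[≠] (0 : ℝ), ¬ SameEnd h (g * kk θ) := by
  set u : G := h⁻¹ * g with hu
  have hent : ∀ θ : ℝ, (h⁻¹ * (g * kk θ)) 1 0 = u 1 0 * Real.cos θ + u 1 1 * Real.sin θ := by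
    intro θ
    rw [← mul_assoc, ← hu]
    simp [kk, Matrix.mul_apply, Fin.sum_univ_two]
  have hdet : u 0 0 * u 1 1 - u 0 1 * u 1 0 = 1 := by
    have := u.det_coe
    rw [Matrix.det_fin_two] at this
    exact this
  unfold SameEnd
  simp only [hent]
  by_cases hc : u 1 0 = 0
  · have hd : u 1 1 ≠ 0 := by
      intro h0
      rw [hc, h0] at hdet
      simp at hdet
    have h1 : ∀ᶠ θ in 𝓝[≠] (0 : ℝ), θ ∈ Set.Ioo (-Real.pi) Real.pi :=
      mem_nhdsWithin_of_mem_nhds (Ioo_mem_nhds (by linarith [Real.pi_pos]) Real.pi_pos)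
    have h2 : ∀ᶠ θ in 𝓝[≠] (0 : ℝ), θ ≠ 0 := eventually_mem_nhdsWithin
    filter_upwards [h1, h2] with θ hθ hθ0 h0
    rw [hc, zero_mul, zero_add] at h0
    rcases mul_eq_zero.1 h0 with h3 | h3
    · exact hd h3
    · exact hθ0 ((Real.sin_eq_zero_iff_of_lt_of_lt hθ.1 hθ.2).1 h3)
  · have hcont : Continuous fun θ : ℝ => u 1 0 * Real.cos θ + u 1 1 * Real.sin θ := by fun_prop
    have h1 : ∀ᶠ θ in 𝓝 (0 : ℝ), u 1 0 * Real.cos θ + u 1 1 * Real.sin θ ≠ 0 := by
      apply hcont.continuousAt.eventually_ne
      simpa using hc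
    exact h1.filter_mono nhdsWithin_le_nhds

theorem mk_T1 : Mk G T1 := by
  have hpi : (0 : ℝ) < 2 * Real.pi := by positivity
  have hk : ∀ (f : G → ℝ), Continuous f → ∀ x : G, Continuous fun θ : ℝ => f (x * kk θ) :=
    fun f hf x => hf.comp (continuous_const.mul continuous_kk)
  refine ⟨?_, ?_, ?_, ?_, ?_⟩
  · intro c x
    unfold T1
    rw [intervalIntegral.integral_const]
    simp
    field_simp
  · intro f g M hf hg _ _ x
    unfold T1
    rw [intervalIntegral.integral_add ((hk f hf x).intervalIntegrable _ _)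
      ((hk g hg x).intervalIntegrable _ _), mul_add]
  · intro c f M _ _ x
    unfold T1
    rw [intervalIntegral.integral_const_mul]
    ring
  · intro f M _ hM x
    unfold T1
    have h1 : ‖∫ θ in (0 : ℝ)..(2 * Real.pi), f (x * kk θ)‖ ≤ M * |2 * Real.pi - 0| :=
      intervalIntegral.norm_integral_le_of_norm_le_const fun θ _ => by
        rw [Real.norm_eq_abs]; exact hM _
    rw [Real.norm_eq_abs, sub_zero, abs_of_pos hpi] at h1
    rw [abs_mul, abs_of_pos (inv_pos.2 hpi), inv_mul_le_iff₀ hpi]
    linarith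
  · intro Z _ _ f M hf _
    unfold T1
    refine continuous_const.mul ?_
    refine intervalIntegral.continuous_parametric_intervalIntegral_of_continuous' ?_ _ _
    have h : Continuous fun q : (Z × G) × ℝ => (q.1.1, q.1.2 * kk q.2) :=
      (continuous_fst.comp continuous_fst).prodMk
        (continuous_mul_kk.comp ((continuous_snd.comp continuous_fst).prodMk continuous_snd))
    exact hf.comp h

end Pool.Agent.Helper87.BCR
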