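import Pool.Agent.Helper87.BCR.Cont
import Pool.Agent.Helper87.BCR.KAv

/-!
# Project BC, block RED: descent to the upper half plane
-/

open scoped MatrixGroups UpperHalfPlane Topology
open MeasureTheory

namespace Pool.Agent.Helper87.BCR
open Pool.Agent.Helper11.BC

instance firstCountable_G : FirstCountableTopology G := by
  haveI : FirstCountableTopology (Matrix (Fin 2) (Fin 2) ℝ) :=
    inferInstanceAs (FirstCountableTopology (Fin 2 → Fin 2 → ℝ))
  exact Matrix.SpecialLinearGroup.isClosedEmbedding_val.isInducing.firstCountableTopology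

theorem dl_map {X Y : Type} (Φ : List Y → ℝ) (a : X → Y) (l : List X) :
    dl (fun m => Φ (m.map a)) l = dl Φ (l.map a) := by
  unfold dl
  simp [List.eraseIdx_map]

theorem continuous_pos : Continuous pos := by
  unfold pos
  fun_prop

theorem pos_mul (g h : G) : pos (g * h) = g • pos h := by
  unfold pos
  rw [mul_smul]

theorem pos_toSL2R (z : ℍ) : pos z.toSL2R = z := UpperHalfPlane.toSL2R_smul_I z

theorem tens_zero {X : Type} {T : (X → ℝ) → X → ℝ} (hT : ∀ x, T (fun _ => 0) x = 0)
    (l : List X) : tens T (fun _ => (0 : ℝ)) l = 0 := by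
  induction l with
  | nil => rfl
  | cons x l ih =>
    simp only [tens]
    simp only [ih]
    exact hT x

theorem tens_T1_congr (l : List G) : ∀ (l' : List G) (B : List G → ℝ), LC B → LB B →
    l.map pos = l'.map pos → tens T1 B l = tens T1 B l' := by
  induction l with
  | nil =>
    intro l' B _ _ h
    rw [List.map_nil] at h
    rw [List.map_eq_nil_iff.1 h.symm]
  | cons g l ih =>
    intro l' B hc hb h
    rcases l' with _ | ⟨g', l'⟩
    · simp at h
    · rw [List.map_cons, List.map_cons, List.cons.injEq] at h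
      obtain ⟨α, rfl⟩ := exists_kk g g' h.1
      simp only [tens]
      have h1 : (fun y => tens T1 (fun m => B (y :: m)) l') =
          fun y => tens T1 (fun m => B (y :: m)) l := by
        funext y
        exact (ih l' _ (hc.cons y) (hb.cons y) h.2).symm
      rw [h1, T1_kk _ ((Mk.lin mk_T1).mem B ⟨hc, hb⟩ l).1]

theorem exists_descent (N : ℕ) (B : List G → ℝ) (C : ℝ) (hc : LC B) (hb : ∀ l, |B l| ≤ C)
    (hi : ∀ (g : G) l, B (l.map (g * ·)) = B l) (hd : ∀ l, dl B l = 0) :
    ∃ B' : List ℍ → ℝ, IsCoc (N + 1) B' C ∧ (∀ l, dl B' l = 0) ∧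
      ∀ l : List G, B' (l.map pos) = tens T1 B l := by
  have hb' : LB B := LB.of_bdd hb
  have hmap : ∀ (g : G) (l : List G), tens T1 B (l.map (g * ·)) = tens T1 B l := by
    intro g l
    have h1 := tens_map mk_T1 (g * ·) (fun f M _ _ x => T1_left f g x) l B hc hb'
    rw [← h1]
    have h2 : (fun m : List G => B (m.map (g * ·))) = B := funext fun m => hi g m
    rw [h2]
  have hd' : ∀ l : List ℍ, dl (fun m => tens T1 B (m.map UpperHalfPlane.toSL2R)) l = 0 := by
    intro l
    rw [dl_map (tens T1 B), ← (Mk.lin mk_T1).tens_dl _ _ ⟨hc, hb'⟩]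
    have h2 : dl B = fun _ => 0 := funext hd
    rw [h2]
    exact tens_zero (fun x => mk_T1.const 0 x) _
  refine ⟨fun l => tens T1 B (l.map UpperHalfPlane.toSL2R), ⟨?_, ?_, ?_, ?_⟩, hd', ?_⟩
  · exact fun l => tens_abs_le mk_T1 hc fun m _ => hb m
  · intro k
    have h1 := (hc.tens mk_T1 hb') k
    have h2 : Continuous fun v : Fin k → ℍ => fun i => (v i).toSL2R :=
      continuous_pi fun i => UpperHalfPlane.continuous_toSL2R.comp (continuous_apply i)
    refine (h1.comp h2).congr fun v => ?_
    show tens T1 B (List.ofFn fun i => (v i).toSL2R) = _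
    rw [List.map_ofFn]
    rfl
  · intro g l
    show tens T1 B _ = tens T1 B _
    rw [← hmap g (l.map UpperHalfPlane.toSL2R)]
    refine tens_T1_congr _ _ _ hc hb' ?_
    rw [List.map_map, List.map_map, List.map_map, List.map_map]
    refine List.map_congr_left fun z _ => ?_
    show pos ((g • z).toSL2R) = pos (g * z.toSL2R)
    rw [pos_mul, pos_toSL2R, pos_toSL2R]
  · exact fun W _ => hd' W
  · intro l
    show tens T1 B _ = tens T1 B _
    refine tens_T1_congr _ _ _ hc hb' ?_
    rw [List.map_map, List.map_map]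
    refine List.map_congr_left fun z _ => ?_
    show pos ((pos z).toSL2R) = pos z
    rw [pos_toSL2R]

end Pool.Agent.Helper87.BCR
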