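import Pool.Agent.Helper87.BCR.Basic

/-!
# Project BC, block RED: Haar measure of `SL(2, ℝ)` is two-sided (piece BC-RED-HAAR)

`mG` (Borel sets) is a local instance here.
* `LocallyCompactSpace G`: `Matrix.SpecialLinearGroup.isClosedEmbedding_val` is a closed embedding
  into the matrices (`IsClosedEmbedding.locallyCompactSpace`; the space `Matrix (Fin 2) (Fin 2) ℝ`
  is a pi type, `inferInstanceAs (LocallyCompactSpace (Fin 2 → Fin 2 → ℝ))`);
  `SecondCountableTopology G`: subspace of a second countable space
  (`Topology.IsEmbedding.secondCountableTopology`).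
* `μ = MeasureTheory.Measure.haar`.  Right invariance: the modular character
  `Δ = MeasureTheory.Measure.modularCharacterFun : G → ℝ≥0`
  (`Mathlib/MeasureTheory/Group/ModularCharacter.lean`) satisfies
  `map (· * g) μ = Δ g • μ`, is positive and multiplicative.  Let
  `u t = !![1, t; 0, 1]`, `v t = !![1, 0; t, 1]`.  With `a = !![2, 0; 0, 1/2]`:
  `a * u t * a⁻¹ = u (4 t)`, so `Δ (u t) = Δ (u (4 t)) = Δ (u t) ^ 4`, hence `Δ (u t) = 1`; in the
  same way `Δ (v t) = 1` (`v t = w * u (-t) * w⁻¹`, or `a⁻¹ * v t * a = v (4 t)`).  Every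
  `g = !![a, b; c, d]` with `c ≠ 0` is `u ((a - 1) / c) * v c * u ((d - 1) / c)`; if `c = 0` then
  `g * v 1` has the entry `d ≠ 0` at the place `(1, 0)`, so `Δ g = Δ (g * v 1) = 1`.
-/

open scoped MatrixGroups UpperHalfPlane Topology
open MeasureTheory

namespace Pool.Agent.Helper87.BCR
open Pool.Agent.Helper11.BC

attribute [local instance] mG bG

theorem locallyCompact_G : LocallyCompactSpace G := by
  have : LocallyCompactSpace (Matrix (Fin 2) (Fin 2) ℝ) :=
    inferInstanceAs (LocallyCompactSpace (Fin 2 → Fin 2 → ℝ))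
  exact Matrix.SpecialLinearGroup.isClosedEmbedding_val.locallyCompactSpace

theorem secondCountable_G : SecondCountableTopology G := by
  have : SecondCountableTopology (Matrix (Fin 2) (Fin 2) ℝ) :=
    inferInstanceAs (SecondCountableTopology (Fin 2 → Fin 2 → ℝ))
  exact Matrix.SpecialLinearGroup.isClosedEmbedding_val.isEmbedding.secondCountableTopology

private def hu (t : ℝ) : G := ⟨!![1, t; 0, 1], by simp⟩
private def hv (t : ℝ) : G := ⟨!![1, 0; t, 1], by simp⟩
private noncomputable def ha : G := ⟨!![2, 0; 0, 1 / 2], by simp⟩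
private noncomputable def ha' : G := ⟨!![1 / 2, 0; 0, 2], by simp⟩

private theorem ha_mul : ha * ha' = 1 := by
  ext i j
  fin_cases i <;> fin_cases j <;> simp [ha, ha', Matrix.SpecialLinearGroup.coe_mul]

private theorem hu_conj (t : ℝ) : ha * hu t * ha' = hu (4 * t) := by
  ext i j
  fin_cases i <;> fin_cases j <;>
    simp [ha, ha', hu, Matrix.SpecialLinearGroup.coe_mul]
  ring

private theorem hv_conj (t : ℝ) : ha' * hv t * ha = hv (4 * t) := by
  ext i j
  fin_cases i <;> fin_cases j <;>
    simp [ha, ha', hv, Matrix.SpecialLinearGroup.coe_mul]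
  ring

private theorem hu_add (s t : ℝ) : hu s * hu t = hu (s + t) := by
  ext i j
  fin_cases i <;> fin_cases j <;>
    simp [hu, Matrix.SpecialLinearGroup.coe_mul]
  ring

private theorem hv_add (s t : ℝ) : hv s * hv t = hv (s + t) := by
  ext i j
  fin_cases i <;> fin_cases j <;>
    simp [hv, Matrix.SpecialLinearGroup.coe_mul]

private theorem eq_one_of {x y y' : NNReal} (hx : 0 < x) (hy : y * y' = 1)
    (h : y * x * y' = x * x * (x * x)) : x = 1 := by
  have h1 : x = x * x * (x * x) := by
    rw [← h]
    calc x = (y * y') * x := by rw [hy, one_mul]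
      _ = y * x * y' := by ring
  have h2 : x ^ 3 = 1 := by
    have h3 : x * x ^ 3 = x * 1 := by
      rw [mul_one]
      nth_rewrite 3 [h1]
      ring
    exact mul_left_cancel₀ hx.ne' h3
  exact (pow_eq_one_iff_of_nonneg (zero_le (a := x)) (by norm_num)).mp h2

private theorem hom_one (D : G →* NNReal) (hpos : ∀ g, 0 < D g) (g : G) : D g = 1 := by
  have haa : D ha * D ha' = 1 := by rw [← map_mul, ha_mul, map_one]
  have hU : ∀ t, D (hu t) = 1 := by
    intro t
    refine eq_one_of (hpos _) haa ?_
    rw [← map_mul, ← map_mul, hu_conj, ← map_mul, ← map_mul, hu_add, hu_add]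
    congr 2
    ring
  have hV : ∀ t, D (hv t) = 1 := by
    intro t
    refine eq_one_of (y := D ha') (y' := D ha) (hpos _) (by rw [mul_comm, haa]) ?_
    rw [← map_mul, ← map_mul, hv_conj, ← map_mul, ← map_mul, hv_add, hv_add]
    congr 2
    ring
  have key : ∀ g : G, g 1 0 ≠ 0 → D g = 1 := by
    intro g hg
    have hdet : g 0 0 * g 1 1 - g 0 1 * g 1 0 = 1 := by
      have := g.2
      rwa [Matrix.det_fin_two] at this
    have h1 : g = hu ((g 0 0 - 1) / g 1 0) * hv (g 1 0) * hu ((g 1 1 - 1) / g 1 0) := by
      ext i j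
      fin_cases i <;> fin_cases j <;>
        simp [hu, hv, Matrix.SpecialLinearGroup.coe_mul] <;> field_simp
      · ring
      · linear_combination -hdet
      · ring
    rw [h1, map_mul, map_mul, hU, hV, hU, one_mul, one_mul]
  by_cases hg : g 1 0 = 0
  · have hdet : g 0 0 * g 1 1 - g 0 1 * g 1 0 = 1 := by
      have := g.2
      rwa [Matrix.det_fin_two] at this
    have h1 : (g * hv 1) 1 0 ≠ 0 := by
      have h2 : (g * hv 1) 1 0 = g 1 0 + g 1 1 := by
        simp [hv, Matrix.SpecialLinearGroup.coe_mul, Matrix.mul_apply, Fin.sum_univ_two]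
      rw [h2, hg, zero_add]
      intro h3
      rw [h3, hg] at hdet
      norm_num at hdet
    have h2 := key _ h1
    rw [map_mul, hV, mul_one] at h2
    exact h2
  · exact key g hg

theorem exists_haar : ∃ μ : Measure G, μ.IsMulLeftInvariant ∧ μ.IsMulRightInvariant ∧
    IsFiniteMeasureOnCompacts μ ∧ μ.IsOpenPosMeasure ∧ SigmaFinite μ := by
  have := locallyCompact_G
  have := secondCountable_G
  refine ⟨Measure.haar, inferInstance, ⟨fun g => ?_⟩, inferInstance, inferInstance, inferInstance⟩
  rw [Measure.map_right_mul_eq_modularCharacterFun_smul]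
  have h1 : Measure.modularCharacter g = 1 :=
    hom_one Measure.modularCharacter (fun g => Measure.modularCharacterFun_pos g) g
  have h2 : Measure.modularCharacterFun g = 1 := h1
  rw [h2, one_smul]

end Pool.Agent.Helper87.BCR
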