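import Pool.Agent.Helper87.BCR.Basic

/-!
# Project BC, block RED: the kernel is a probability density (piece BC-RED-KER)

`cosh (dist z w / 2) ^ 2 = ((z.re - w.re)^2 + (z.im + w.im)^2) / (4 * z.im * w.im)`
(from `UpperHalfPlane.cosh_half_dist` or `UpperHalfPlane.cosh_dist`), so
`ker z w = (4 / π) * (z.im)^2 * (w.im)^2 / ((z.re - w.re)^2 + (z.im + w.im)^2)^2`.
The measure of the upper half plane is `dx dy / y^2` (`UpperHalfPlane.volume_def`,
`Mathlib/Analysis/Complex/UpperHalfPlane/Measure.lean`: `volume` is `withDensity` over the `comap` of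
the volume of `ℂ`), so
`∫ ker z w = (4 y'^2 / π) ∫_{y > 0} ∫_x dx dy / ((x - x')^2 + (y + y')^2)^2` with `z = x' + i y'`,
`∫_x dx / (x^2 + a^2)^2 = π / (2 a^3)` (antiderivative
`x / (2 a^2 (x^2 + a^2)) + arctan (x / a) / (2 a^3)`),
`∫_0^∞ dy / (y + y')^3 = 1 / (2 y'^2)`; total `1`.
It is convenient to work with `lintegral` (`UpperHalfPlane.volume_eq_lintegral`,
`Complex.volume_preserving_equiv_real_prod`, `lintegral_prod`) or to use
`integral_withDensity_eq_integral_smul` and `setIntegral_prod`.  By invariance of the measure and of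
the distance it is enough to treat `z = I` (optional: `ker (g • z) (g • w) = ker z w`).
-/

open scoped MatrixGroups UpperHalfPlane Topology
open MeasureTheory

namespace Pool.Agent.Helper87.BCR
open Pool.Agent.Helper11.BC

private theorem Ker_g_deriv (t : ℝ) :
    HasDerivAt (fun t : ℝ => t / (2 * (1 + t ^ 2)) + Real.arctan t / 2) (((1 + t ^ 2) ^ 2)⁻¹) t := by
  have h0 : (1 + t ^ 2) ≠ 0 := by positivity
  have h1 : HasDerivAt (fun t : ℝ => 2 * (1 + t ^ 2)) (4 * t) t := by
    have := (((hasDerivAt_id t).pow 2).const_add 1).const_mul 2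
    refine this.congr_deriv ?_
    simp
    ring
  have h2 := ((hasDerivAt_id t).div h1 (by positivity)).add ((Real.hasDerivAt_arctan t).div_const 2)
  refine h2.congr_deriv ?_
  simp only [id]
  field_simp
  ring

private theorem Ker_g_int : Integrable (fun t : ℝ => ((1 + t ^ 2) ^ 2)⁻¹) := by
  refine integrable_inv_one_add_sq.mono' ?_ ?_
  · exact (by fun_prop : Measurable fun t : ℝ => ((1 + t ^ 2) ^ 2)⁻¹).aestronglyMeasurable
  · refine Filter.Eventually.of_forall fun t => ?_
    have h1 : 1 ≤ 1 + t ^ 2 := by nlinarith [sq_nonneg t]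
    rw [Real.norm_of_nonneg (by positivity)]
    refine inv_anti₀ (by positivity) ?_
    nlinarith

private theorem Ker_lim_top : Filter.Tendsto (fun t : ℝ => t / (2 * (1 + t ^ 2))) Filter.atTop (𝓝 0) := by
  have h1 : Filter.Tendsto (fun t : ℝ => t⁻¹) Filter.atTop (𝓝 0) := tendsto_inv_atTop_zero
  refine squeeze_zero' ?_ ?_ h1
  · filter_upwards [Filter.eventually_gt_atTop 0] with t ht
    positivity
  · filter_upwards [Filter.eventually_gt_atTop 0] with t ht
    rw [div_le_iff₀ (by positivity)]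
    field_simp
    nlinarith [sq_nonneg t]

private theorem Ker_lim_bot : Filter.Tendsto (fun t : ℝ => t / (2 * (1 + t ^ 2))) Filter.atBot (𝓝 0) := by
  have h1 := (Ker_lim_top.comp Filter.tendsto_neg_atBot_atTop).neg
  rw [neg_zero] at h1
  refine h1.congr fun t => ?_
  simp only [Function.comp]
  rw [neg_sq, neg_div, neg_neg]

private theorem Ker_g_val : ∫ t : ℝ, ((1 + t ^ 2) ^ 2)⁻¹ = Real.pi / 2 := by
  have h1 : Filter.Tendsto (fun t : ℝ => t / (2 * (1 + t ^ 2)) + Real.arctan t / 2) Filter.atTop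
      (𝓝 (0 + (Real.pi / 2) / 2)) :=
    Ker_lim_top.add ((Real.tendsto_arctan_atTop.mono_right nhdsWithin_le_nhds).div_const 2)
  have h2 : Filter.Tendsto (fun t : ℝ => t / (2 * (1 + t ^ 2)) + Real.arctan t / 2) Filter.atBot
      (𝓝 (0 + (-(Real.pi / 2)) / 2)) :=
    Ker_lim_bot.add ((Real.tendsto_arctan_atBot.mono_right nhdsWithin_le_nhds).div_const 2)
  rw [integral_of_hasDerivAt_of_tendsto Ker_g_deriv Ker_g_int h2 h1]
  ring

private theorem Ker_inner (c a x' : ℝ) (hc : 0 ≤ c) (ha : 0 < a) :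
    ∫⁻ x : ℝ, ENNReal.ofReal (c / ((x' - x) ^ 2 + a ^ 2) ^ 2) =
      ENNReal.ofReal (c * Real.pi / (2 * a ^ 3)) := by
  have h0 : ∀ x : ℝ, c / ((x' - x) ^ 2 + a ^ 2) ^ 2 =
      c / a ^ 4 * (fun t : ℝ => ((1 + t ^ 2) ^ 2)⁻¹) ((x - x') / a) := by
    intro x
    have : 0 < (x' - x) ^ 2 + a ^ 2 := by positivity
    have h3 : 0 < 1 + ((x - x') / a) ^ 2 := by positivity
    simp only
    have h4 : 1 + ((x - x') / a) ^ 2 = ((x' - x) ^ 2 + a ^ 2) / a ^ 2 := by
      field_simp
      ring
    rw [h4]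
    field_simp
  have h1 : Integrable (fun x : ℝ => (fun t : ℝ => ((1 + t ^ 2) ^ 2)⁻¹) ((x - x') / a)) := by
    exact (Ker_g_int.comp_div ha.ne').comp_sub_right x'
  have h2 : ∫ x : ℝ, (fun t : ℝ => ((1 + t ^ 2) ^ 2)⁻¹) ((x - x') / a) = a * (Real.pi / 2) := by
    rw [integral_sub_right_eq_self (fun x => (fun t : ℝ => ((1 + t ^ 2) ^ 2)⁻¹) (x / a)) x',
      Measure.integral_comp_div (fun t : ℝ => ((1 + t ^ 2) ^ 2)⁻¹) a, Ker_g_val, abs_of_pos ha,
      smul_eq_mul]
  simp_rw [h0]
  rw [← ofReal_integral_eq_lintegral_ofReal (h1.const_mul _)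
    (Filter.Eventually.of_forall fun x => by positivity), integral_const_mul, h2]
  congr 1
  field_simp

private theorem Ker_outer (y' : ℝ) (hy : 0 < y') :
    ∫⁻ y in Set.Ioi (0 : ℝ), ENNReal.ofReal (2 * y' ^ 2 / (y + y') ^ 3) = 1 := by
  have h1 : ∀ y ∈ Set.Ioi (0 : ℝ),
      HasDerivAt (fun y : ℝ => - (y' ^ 2 / (y + y') ^ 2)) (2 * y' ^ 2 / (y + y') ^ 3) y := by
    intro y hy0
    have hy1 : 0 < y + y' := by
      have : 0 < y := hy0
      linarith
    have h2 : HasDerivAt (fun y : ℝ => (y + y') ^ 2) (2 * (y + y')) y := by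
      have := ((hasDerivAt_id y).add_const y').pow 2
      refine this.congr_deriv ?_
      simp
    have h3 := ((hasDerivAt_const y (y' ^ 2)).div h2 (by positivity)).neg
    refine h3.congr_deriv ?_
    field_simp
    ring
  have hc : ContinuousWithinAt (fun y : ℝ => - (y' ^ 2 / (y + y') ^ 2)) (Set.Ici 0) 0 := by
    apply ContinuousAt.continuousWithinAt
    refine ContinuousAt.neg (ContinuousAt.div continuousAt_const (by fun_prop) ?_)
    positivity
  have hl : Filter.Tendsto (fun y : ℝ => - (y' ^ 2 / (y + y') ^ 2)) Filter.atTop (𝓝 0) := by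
    have h4 : Filter.Tendsto (fun y : ℝ => (y + y') ^ 2) Filter.atTop Filter.atTop :=
      (Filter.tendsto_pow_atTop (by norm_num)).comp
        (Filter.tendsto_atTop_add_const_right _ _ Filter.tendsto_id)
    have h5 := (h4.const_div_atTop (y' ^ 2)).neg
    rwa [neg_zero] at h5
  have hpos : ∀ y ∈ Set.Ioi (0 : ℝ), 0 ≤ 2 * y' ^ 2 / (y + y') ^ 3 := by
    intro y hy0
    have : 0 < y := hy0
    positivity
  have hi := integrableOn_Ioi_deriv_of_nonneg hc h1 hpos hl
  have hv := integral_Ioi_of_hasDerivAt_of_nonneg hc h1 hpos hl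
  rw [← ofReal_integral_eq_lintegral_ofReal hi
    ((ae_restrict_iff' measurableSet_Ioi).2 (Filter.Eventually.of_forall hpos)), hv]
  have : (0 : ℝ) - - (y' ^ 2 / (0 + y') ^ 2) = 1 := by
    field_simp
    ring
  rw [this, ENNReal.ofReal_one]

private theorem Ker_eq (z w : ℍ) : ker z w =
    (4 * z.im ^ 2 / Real.pi) / ((z.re - w.re) ^ 2 + (w.im + z.im) ^ 2) ^ 2 * w.im ^ 2 := by
  have hz := z.im_pos
  have hw := w.im_pos
  unfold ker
  rw [UpperHalfPlane.cosh_half_dist, Complex.dist_eq, div_pow]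
  have h1 : ‖(z : ℂ) - (starRingEnd ℂ) (w : ℂ)‖ ^ 2 = (z.re - w.re) ^ 2 + (w.im + z.im) ^ 2 := by
    rw [← Complex.normSq_eq_norm_sq, Complex.normSq_apply]
    simp only [Complex.sub_re, Complex.sub_im, Complex.conj_re, Complex.conj_im,
      UpperHalfPlane.coe_re, UpperHalfPlane.coe_im]
    ring
  have h2 : ‖(z : ℂ) - (starRingEnd ℂ) (w : ℂ)‖ ^ 4 =
      ((z.re - w.re) ^ 2 + (w.im + z.im) ^ 2) ^ 2 := by
    rw [← h1]
    ring
  have h3 : (2 * √(z.im * w.im)) ^ 4 = 16 * (z.im * w.im) ^ 2 := by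
    have : √(z.im * w.im) ^ 2 = z.im * w.im := Real.sq_sqrt (by positivity)
    calc (2 * √(z.im * w.im)) ^ 4 = 16 * (√(z.im * w.im) ^ 2) ^ 2 := by ring
      _ = 16 * (z.im * w.im) ^ 2 := by rw [this]
  rw [h2, h3]
  have h4 : 0 < (z.re - w.re) ^ 2 + (w.im + z.im) ^ 2 := by positivity
  field_simp
  ring

private theorem Ker_cont (z : ℍ) : Continuous fun w : ℍ => ker z w := by
  unfold ker
  refine Continuous.mul continuous_const (Continuous.inv₀ ?_ ?_)
  · have : Continuous fun w : ℍ => dist z w := continuous_const.dist continuous_id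
    exact (Real.continuous_cosh.comp (this.div_const 2)).pow 4
  · intro w
    exact pow_ne_zero _ (Real.cosh_pos _).ne'

private theorem Ker_lint (z : ℍ) : ∫⁻ w : ℍ, ENNReal.ofReal (ker z w) = 1 := by
  set H : ℂ → ENNReal := fun ζ =>
    ENNReal.ofReal ((4 * z.im ^ 2 / Real.pi) / ((z.re - ζ.re) ^ 2 + (ζ.im + z.im) ^ 2) ^ 2) with hH
  have hHm : Measurable H := by
    refine ENNReal.measurable_ofReal.comp (Measurable.div measurable_const ?_)
    fun_prop
  have hρ : Measurable fun w : ℍ =>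
      (((1 / NNReal.mk w.im w.im_pos.le : NNReal) ^ 2 : NNReal) : ENNReal) := by
    refine Measurable.coe_nnreal_ennreal (Measurable.pow_const (Measurable.div measurable_const ?_) 2)
    exact (UpperHalfPlane.continuous_im.subtype_mk _).measurable
  rw [UpperHalfPlane.volume_def, lintegral_withDensity_eq_lintegral_mul _ hρ
    ((Ker_cont z).measurable.ennreal_ofReal)]
  have h1 : ∀ w : ℍ, ((fun w : ℍ =>
      (((1 / NNReal.mk w.im w.im_pos.le : NNReal) ^ 2 : NNReal) : ENNReal)) *
      fun w : ℍ => ENNReal.ofReal (ker z w)) w = H (w : ℂ) := by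
    intro w
    have hw := w.im_pos
    simp only [Pi.mul_apply, hH]
    have e1 : (((1 / NNReal.mk w.im w.im_pos.le : NNReal) ^ 2 : NNReal) : ENNReal) =
        ENNReal.ofReal ((1 / w.im) ^ 2) := by
      rw [ENNReal.ofReal, Real.toNNReal_of_nonneg (by positivity)]
      congr 1
    rw [e1, ← ENNReal.ofReal_mul (by positivity), Ker_eq]
    congr 1
    simp only [UpperHalfPlane.coe_re, UpperHalfPlane.coe_im]
    field_simp
  rw [lintegral_congr h1, ← UpperHalfPlane.measurableEmbedding_coe.lintegral_map,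
    UpperHalfPlane.measurableEmbedding_coe.map_comap]
  have hrange : Set.range UpperHalfPlane.coe =
      Complex.measurableEquivRealProd ⁻¹' (Set.univ ×ˢ Set.Ioi (0 : ℝ)) := by
    ext ζ
    constructor
    · rintro ⟨w, rfl⟩
      exact ⟨trivial, w.im_pos⟩
    · rintro ⟨-, h⟩
      exact ⟨⟨ζ, h⟩, rfl⟩
  rw [hrange]
  have h2 := Complex.volume_preserving_equiv_real_prod.setLIntegral_comp_preimage_emb
    Complex.measurableEquivRealProd.measurableEmbedding
    (fun p : ℝ × ℝ => H (Complex.measurableEquivRealProd.symm p)) (Set.univ ×ˢ Set.Ioi (0 : ℝ))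
  simp only [MeasurableEquiv.symm_apply_apply] at h2
  rw [h2, Measure.volume_eq_prod, ← Measure.prod_restrict, Measure.restrict_univ,
    lintegral_prod_symm (fun p : ℝ × ℝ => H (Complex.measurableEquivRealProd.symm p))
      (hHm.comp Complex.measurableEquivRealProd.symm.measurable).aemeasurable]
  have h3 : ∀ y ∈ Set.Ioi (0 : ℝ), ∫⁻ x : ℝ, H (Complex.measurableEquivRealProd.symm (x, y)) =
      ENNReal.ofReal (2 * z.im ^ 2 / (y + z.im) ^ 3) := by
    intro y hy
    have hy0 : 0 < y := hy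
    have hz := z.im_pos
    have h4 := Ker_inner (4 * z.im ^ 2 / Real.pi) (y + z.im) z.re (by positivity) (by positivity)
    refine Eq.trans (lintegral_congr fun x => ?_) (h4.trans ?_)
    · rfl
    · congr 1
      field_simp
      ring
  rw [setLIntegral_congr_fun measurableSet_Ioi h3]
  exact Ker_outer z.im z.im_pos

theorem ker_pos (z w : ℍ) : 0 < ker z w := by
  have h := Real.cosh_pos (dist z w / 2)
  unfold ker
  have := Real.pi_pos
  positivity

theorem ker_smul (g : G) (z w : ℍ) : ker (g • z) (g • w) = ker z w := by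
  unfold ker
  rw [dist_smul]

theorem ker_integrable (z : ℍ) : Integrable (fun w : ℍ => ker z w) := by
  refine ⟨(Ker_cont z).aestronglyMeasurable, ?_⟩
  rw [hasFiniteIntegral_iff_ofReal (Filter.Eventually.of_forall fun w => (ker_pos z w).le),
    Ker_lint]
  exact ENNReal.one_lt_top

theorem ker_integral (z : ℍ) : ∫ w : ℍ, ker z w = 1 := by
  rw [integral_eq_lintegral_of_nonneg_ae (Filter.Eventually.of_forall fun w => (ker_pos z w).le)
    (Ker_cont z).aestronglyMeasurable, Ker_lint]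
  rfl

end Pool.Agent.Helper87.BCR
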