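import Pool.Agent.Helper87.BCR.Ker

/-!
# Project BC, block RED: the smoothing operator (piece BC-RED-SMO)

`ker_pos`, `ker_smul`, `ker_integrable`, `ker_integral` are in `Ker.lean` (own piece).
* `sm_eq`: induction on the list, generalizing `b`; both sides unfold to the same integral.
* `T2_smul`: `∫ ker z w * f (g • w) = ∫ ker (g • z) (g • w) * f (g • w) = ∫ ker (g • z) w * f w`
  by `ker_smul` and the invariance of the measure (`MeasureTheory.integral_smul_eq_self` with
  `SMulInvariantMeasure`; in Mathlib the instance is for `GL (Fin 2) ℝ`; the action of `SL(2, ℝ)` is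
  the one through `GL (Fin 2) ℝ`).
* `mk_T2`: `const` from `ker_integral`, `add`, `smul` by linearity (a bounded continuous function
  times `ker z` is integrable: `Integrable.mul_bdd` or `Integrable.mono'`), `bdd` by
  `abs_integral_le_integral_abs`, `ker_pos` and `ker_integral`.
  `cont`: at a point `(ζ₀, z₀)`: `MeasureTheory.continuousAt_of_dominated`, with the bound
  `w ↦ |M| * K * ker z₀ w` for `dist z z₀ < 1`: since `dist z₀ w ≤ dist z w + 1`,
  `cosh (dist z₀ w / 2) ≤ cosh (dist z w / 2) * exp (1 / 2) ` (`cosh (a + b) ≤ exp b * cosh a` for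
  `b ≥ 0`), so `ker z w ≤ exp 2 * ker z₀ w`.
-/

open scoped MatrixGroups UpperHalfPlane Topology
open MeasureTheory

namespace Pool.Agent.Helper87.BCR
open Pool.Agent.Helper11.BC

private theorem Smo_int {f : ℍ → ℝ} {M : ℝ} (hf : Continuous f) (hM : ∀ x, |f x| ≤ M) (z : ℍ) :
    Integrable fun w : ℍ => ker z w * f w :=
  (ker_integrable z).mul_bdd (c := M) hf.aestronglyMeasurable
    (Filter.Eventually.of_forall fun x => by rw [Real.norm_eq_abs]; exact hM x)

private theorem Smo_cosh_le {a b c : ℝ} (ha : 0 ≤ a) (hb : 0 ≤ b) (hc : 0 ≤ c) (h : a ≤ b + c) :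
    Real.cosh a ≤ Real.exp c * Real.cosh b := by
  have h1 : Real.cosh a ≤ Real.cosh (b + c) := by
    rw [Real.cosh_le_cosh, abs_of_nonneg ha, abs_of_nonneg (by positivity)]
    exact h
  refine h1.trans ?_
  rw [Real.cosh_add, ← Real.cosh_add_sinh c, add_mul]
  have h2 : Real.sinh b ≤ Real.cosh b := (Real.sinh_lt_cosh b).le
  have h3 : 0 ≤ Real.sinh c := Real.sinh_nonneg_iff.2 hc
  nlinarith [mul_le_mul_of_nonneg_left h2 h3]

private theorem Smo_ker_le {z z₀ w : ℍ} (h : dist z z₀ < 1) :
    ker z w ≤ Real.exp 2 * ker z₀ w := by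
  have h1 : dist z₀ w / 2 ≤ dist z w / 2 + 1 / 2 := by
    have := dist_triangle z₀ z w
    rw [dist_comm z₀ z] at this
    linarith
  have h2 := Smo_cosh_le (by positivity) (by positivity) (by norm_num) h1
  unfold ker
  have h3 := Real.cosh_pos (dist z w / 2)
  have h4 := Real.cosh_pos (dist z₀ w / 2)
  have h5 : Real.cosh (dist z₀ w / 2) ^ 4 ≤ Real.exp 2 * Real.cosh (dist z w / 2) ^ 4 := by
    calc Real.cosh (dist z₀ w / 2) ^ 4 ≤ (Real.exp (1 / 2) * Real.cosh (dist z w / 2)) ^ 4 := by
          gcongr
      _ = Real.exp (1 / 2) ^ 4 * Real.cosh (dist z w / 2) ^ 4 := by ring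
      _ = Real.exp 2 * Real.cosh (dist z w / 2) ^ 4 := by
          rw [← Real.exp_nat_mul]
          norm_num
  have h6 : (Real.cosh (dist z w / 2) ^ 4)⁻¹ ≤ Real.exp 2 * (Real.cosh (dist z₀ w / 2) ^ 4)⁻¹ := by
    rw [inv_le_iff_one_le_mul₀ (by positivity)]
    rw [← div_eq_mul_inv, div_mul_eq_mul_div, le_div_iff₀ (by positivity), one_mul]
    exact h5
  have h7 : 0 ≤ 1 / (4 * Real.pi) := by positivity
  calc _ ≤ 1 / (4 * Real.pi) * (Real.exp 2 * (Real.cosh (dist z₀ w / 2) ^ 4)⁻¹) := by gcongr
    _ = _ := by ring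

private theorem Smo_ker_cont : Continuous fun p : ℍ × ℍ => ker p.1 p.2 := by
  unfold ker
  refine Continuous.mul continuous_const (Continuous.inv₀ ?_ ?_)
  · have : Continuous fun p : ℍ × ℍ => dist p.1 p.2 := continuous_fst.dist continuous_snd
    exact (Real.continuous_cosh.comp (this.div_const 2)).pow 4
  · intro w
    exact pow_ne_zero _ (Real.cosh_pos _).ne'

theorem sm_eq (b : List ℍ → ℝ) (l : List ℍ) : sm b l = tens T2 b l := by
  induction l generalizing b with
  | nil => rfl
  | cons z l ih =>
    show (∫ w : ℍ, ker z w * sm (fun l' => b (w :: l')) l) =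
      ∫ w : ℍ, ker z w * tens T2 (fun m => b (w :: m)) l
    refine integral_congr_ae (Filter.Eventually.of_forall fun w => ?_)
    simp only [ih]

theorem T2_smul (f : ℍ → ℝ) (g : G) (z : ℍ) : T2 (fun w => f (g • w)) z = T2 f (g • z) := by
  unfold T2
  have h1 : ∀ w : ℍ, ker z w * f (g • w) =
      (fun w => ker (g • z) w * f w) ((g : Matrix.GeneralLinearGroup (Fin 2) ℝ) • w) := by
    intro w
    have e1 : ((g : Matrix.GeneralLinearGroup (Fin 2) ℝ) • w : ℍ) = g • w := rfl
    rw [e1]
    simp only [ker_smul]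
  simp_rw [h1]
  exact integral_smul_eq_self (g := (g : Matrix.GeneralLinearGroup (Fin 2) ℝ))
    (fun w => ker (g • z) w * f w)

theorem mk_T2 : Mk ℍ T2 := by
  constructor
  · intro c x
    unfold T2
    rw [integral_mul_const, ker_integral, one_mul]
  · intro f g M hf hg hfM hgM x
    unfold T2
    rw [← integral_add (Smo_int hf hfM x) (Smo_int hg hgM x)]
    refine integral_congr_ae (Filter.Eventually.of_forall fun w => ?_)
    simp only
    ring
  · intro c f M hf hM x
    unfold T2
    rw [← integral_const_mul]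
    refine integral_congr_ae (Filter.Eventually.of_forall fun w => ?_)
    simp only
    ring
  · intro f M hf hM x
    unfold T2
    refine (abs_integral_le_integral_abs).trans ?_
    have h1 : ∫ w : ℍ, |ker x w * f w| ≤ ∫ w : ℍ, ker x w * M := by
      refine integral_mono (Smo_int hf hM x).abs ((ker_integrable x).mul_const M) fun w => ?_
      simp only
      rw [abs_mul, abs_of_pos (ker_pos x w)]
      exact mul_le_mul_of_nonneg_left (hM w) (ker_pos x w).le
    rw [integral_mul_const, ker_integral, one_mul] at h1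
    exact h1
  · intro Z _ _ f M hf hM
    rw [continuous_iff_continuousAt]
    rintro ⟨ζ₀, z₀⟩
    unfold T2
    have hM0 : 0 ≤ M := (abs_nonneg _).trans (hM ζ₀ z₀)
    refine continuousAt_of_dominated (bound := fun w => Real.exp 2 * ker z₀ w * M) ?_ ?_ ?_ ?_
    · refine Filter.Eventually.of_forall fun p => ?_
      refine Continuous.aestronglyMeasurable ?_
      exact (Smo_ker_cont.comp (continuous_const.prodMk continuous_id)).mul
        (hf.comp (continuous_const.prodMk continuous_id))
    · have h1 : ∀ᶠ p : Z × ℍ in 𝓝 (ζ₀, z₀), dist p.2 z₀ < 1 := by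
        have h2 : ContinuousAt (fun p : Z × ℍ => dist p.2 z₀) (ζ₀, z₀) :=
          (continuous_snd.dist continuous_const).continuousAt
        refine h2.eventually_lt continuousAt_const ?_
        simp
      filter_upwards [h1] with p hp
      refine Filter.Eventually.of_forall fun w => ?_
      rw [norm_mul, Real.norm_of_nonneg (ker_pos _ _).le, Real.norm_eq_abs]
      exact mul_le_mul (Smo_ker_le hp) (hM _ _) (abs_nonneg _)
        (mul_nonneg (Real.exp_pos _).le (ker_pos _ _).le)
    · exact ((ker_integrable z₀).const_mul _).mul_const _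
    · refine Filter.Eventually.of_forall fun w => ?_
      refine Continuous.continuousAt ?_
      exact (Smo_ker_cont.comp (continuous_snd.prodMk continuous_const)).mul
        (hf.comp (continuous_fst.prodMk continuous_const))

end Pool.Agent.Helper87.BCR
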