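import Pool.Agent.Helper87.BCR.KAv

/-!
# Project BC, block RED: the ultrafilter evaluation (piece BC-RED-ULTRA)

`continuous_kk`, `kk_zero`, `not_sameEnd_kk` are in `KAv.lean` (own piece).

Let `ψ' Y = ψ Y` if `Generic Y` and `Y.length = N + 1`, and `0` otherwise: `|ψ'| ≤ |M|` everywhere,
`ψ'` is invariant (`Generic (Y.map (g * ·)) ↔ Generic Y`, `List.pairwise_map`), and
`dl ψ' W = c W` for `W` generic of length `N + 2` (the faces of a generic list are generic:
`List.Pairwise.sublist` with `List.eraseIdx_sublist`).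
Let `𝒰` be an ultrafilter with `𝒰 ≤ 𝓝[≠] 0` (`Ultrafilter.of`), and
`Lm f = limUnder 𝒰 f` for `f : ℝ → ℝ`; for bounded `f` it is the limit
(`Ultrafilter` and compactness of `Set.Icc (-M) M`: `IsCompact.ultrafilter_le_nhds`).  Define
`E Φ [] = Φ []`, `E Φ (g :: l) = Lm fun θ => E (fun m => Φ (g * kk θ :: m)) l` and `h = E ψ'`.
1. (bound) `|E Φ l| ≤ M` if `|Φ| ≤ M` everywhere.
2. (linearity) `E (fun m => Φ m - Ψ m) l = E Φ l - E Ψ l` for bounded `Φ`, `Ψ`; more generally `Lm`
   commutes with finite linear combinations of bounded functions.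
3. (faces) `E (dl Φ) l = dl (E Φ) l` for `Φ` bounded in every length: exactly the proof of
   `Lin.tens_dl` in `Alg.lean` (`Lm` of a constant is the constant); you may also obtain 2. and 3.
   from `Lin.tens_dl` and `Lin.tens_sub` directly, because `E = tens T` for
   `T f g = Lm fun θ => f (g * kk θ)`, with `Q f = ∃ M, ∀ x, |f x| ≤ M` and
   `A Φ = LB Φ` (only for lists of a fixed length the bound is needed).
4. (invariance) `E (fun m => Φ (m.map (g * ·))) l = E Φ (l.map (g * ·))` (associativity).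
5. (genericity) If `Φ` and `Ψ` agree on the generic lists `m` with `m.length = l.length` such that no
   element of `m` has the same end as an element of the list `p`, then `E Φ l = E Ψ l` (induction on
   `l`, generalizing `p`, `Φ`, `Ψ`: by `not_sameEnd_kk`, for almost all `θ` the element `g * kk θ` has
   not the same end as any element of `p`, and one applies the induction hypothesis to
   `g * kk θ :: p`; limits of eventually equal functions are equal).
6. (continuous functions) `E Φ l = Φ l` if `LC Φ` (induction on `l`: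
   `E Φ (g :: l) = Lm fun θ => Φ (g * kk θ :: l)`, and this converges to `Φ (g :: l)`, by
   `continuous_kk` and `kk_zero`; `LC (fun m => Φ (x :: m))` and the continuity in the first entry
   follow from `List.ofFn_cons` and `LC Φ (k + 1)`).
Then for `W.length = N + 2`: `dl h W = E (dl ψ') W = E c W = c W`, by 3., 5. (with `p = []`), 6.
-/

open scoped MatrixGroups UpperHalfPlane Topology
open MeasureTheory

namespace Pool.Agent.Helper87.BCR
open Pool.Agent.Helper11.BC

/-- the ultrafilter -/
noncomputable def ultU : Ultrafilter ℝ := Ultrafilter.of (𝓝[≠] (0 : ℝ))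

theorem ultU_le : (ultU : Filter ℝ) ≤ 𝓝[≠] (0 : ℝ) := Ultrafilter.of_le _

/-- the limit along the ultrafilter -/
noncomputable def ultLm (f : ℝ → ℝ) : ℝ := (ultU : Filter ℝ).limUnder f

/-- the operator -/
noncomputable def ultT (f : G → ℝ) (g : G) : ℝ := ultLm fun θ => f (g * kk θ)

theorem ultLm_tendsto {f : ℝ → ℝ} {M : ℝ} (h : ∀ x, |f x| ≤ M) :
    Filter.Tendsto f (ultU : Filter ℝ) (𝓝 (ultLm f)) := by
  obtain ⟨x, _, hx⟩ := (isCompact_Icc (a := -M) (b := M)).ultrafilter_le_nhds (ultU.map f) (by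
    rw [Filter.le_principal_iff, Ultrafilter.coe_map, Filter.mem_map]
    exact Filter.Eventually.of_forall fun y => abs_le.mp (h y))
  have h1 : Filter.Tendsto f (ultU : Filter ℝ) (𝓝 x) := hx
  have h2 : ultLm f = x := h1.limUnder_eq
  rw [h2]
  exact h1

theorem ultLm_eq {f : ℝ → ℝ} {x : ℝ} (h : Filter.Tendsto f (ultU : Filter ℝ) (𝓝 x)) :
    ultLm f = x := h.limUnder_eq

theorem ultLm_congr {f g : ℝ → ℝ} (h : f =ᶠ[(ultU : Filter ℝ)] g) : ultLm f = ultLm g := by
  unfold ultLm Filter.limUnder
  rw [Filter.map_congr h]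

theorem ultLm_bdd {f : ℝ → ℝ} {M : ℝ} (h : ∀ x, |f x| ≤ M) : |ultLm f| ≤ M :=
  le_of_tendsto (ultLm_tendsto h).abs (Filter.Eventually.of_forall h)

theorem ult_tens_bdd (l : List G) : ∀ (Φ : List G → ℝ) (M : ℝ),
    (∀ m : List G, m.length = l.length → |Φ m| ≤ M) → |tens ultT Φ l| ≤ M := by
  induction l with
  | nil => intro Φ M h; exact h [] rfl
  | cons x l ih =>
    intro Φ M h
    refine ultLm_bdd (f := fun θ => tens ultT (fun m => Φ (x * kk θ :: m)) l)
      fun θ => ih (fun m => Φ (x * kk θ :: m)) M fun m hm => h (x * kk θ :: m) ?_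
    rw [List.length_cons, List.length_cons, hm]

theorem ult_lin : Lin ultT (fun f => ∃ M, ∀ x, |f x| ≤ M) LB where
  const := fun c x => ultLm_eq tendsto_const_nhds
  Qconst := fun c => ⟨|c|, fun _ => le_rfl⟩
  Qadd := by
    rintro f g ⟨M, hM⟩ ⟨K, hK⟩
    exact ⟨M + K, fun x => (abs_add_le _ _).trans (add_le_add (hM x) (hK x))⟩
  Qsmul := by
    rintro c f ⟨M, hM⟩
    refine ⟨|c| * M, fun x => ?_⟩
    rw [abs_mul]
    exact mul_le_mul_of_nonneg_left (hM x) (abs_nonneg c)
  add := by
    rintro f g ⟨M, hM⟩ ⟨K, hK⟩ x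
    exact ultLm_eq ((ultLm_tendsto fun θ => hM _).add (ultLm_tendsto fun θ => hK _))
  smul := by
    rintro c f ⟨M, hM⟩ x
    exact ultLm_eq ((ultLm_tendsto fun θ => hM _).const_mul c)
  cons := by
    intro Φ hΦ x k
    obtain ⟨M, hM⟩ := hΦ (k + 1)
    exact ⟨M, fun l hl => hM _ (by rw [List.length_cons, hl])⟩
  sub := by
    intro Φ Ψ hΦ hΨ k
    obtain ⟨M, hM⟩ := hΦ k
    obtain ⟨K, hK⟩ := hΨ k
    exact ⟨M + K, fun l hl => (abs_sub _ _).trans (add_le_add (hM l hl) (hK l hl))⟩
  dl := by
    intro Φ hΦ k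
    obtain ⟨M, hM⟩ := hΦ (k - 1)
    refine ⟨k * M, fun l hl => ?_⟩
    unfold dl
    refine (Finset.abs_sum_le_sum_abs _ _).trans ?_
    have h1 : ∀ i ∈ Finset.range l.length, |(-1 : ℝ) ^ i • Φ (l.eraseIdx i)| ≤ M := by
      intro i hi
      rw [smul_eq_mul, abs_mul, abs_pow, abs_neg, abs_one, one_pow, one_mul]
      apply hM
      rw [List.length_eraseIdx_of_lt (Finset.mem_range.mp hi), hl]
    refine (Finset.sum_le_card_nsmul _ _ _ h1).trans ?_
    rw [Finset.card_range, hl, nsmul_eq_mul]
  mem := by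
    intro Φ hΦ l
    obtain ⟨M, hM⟩ := hΦ (l.length + 1)
    exact ⟨M, fun y => ult_tens_bdd l _ M fun m hm => hM _ (by rw [List.length_cons, hm])⟩

theorem ult_inv (g : G) (l : List G) : ∀ Φ : List G → ℝ,
    tens ultT (fun m => Φ (m.map (g * ·))) l = tens ultT Φ (l.map (g * ·)) := by
  induction l with
  | nil => intro Φ; rfl
  | cons x l ih =>
    intro Φ
    simp only [tens, List.map_cons, ultT]
    congr 1
    funext θ
    rw [← mul_assoc]
    exact ih fun m => Φ (g * x * kk θ :: m)

theorem ult_gen (l : List G) : ∀ (p : List G) (Φ Ψ : List G → ℝ),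
    (∀ m : List G, m.length = l.length → Generic m → (∀ a ∈ p, ∀ b ∈ m, ¬ SameEnd a b) →
      Φ m = Ψ m) → tens ultT Φ l = tens ultT Ψ l := by
  induction l with
  | nil =>
    intro p Φ Ψ h
    exact h [] rfl List.Pairwise.nil (by simp)
  | cons x l ih =>
    intro p Φ Ψ h
    simp only [tens, ultT]
    apply ultLm_congr
    have h1 : ∀ᶠ θ in (ultU : Filter ℝ), ∀ a ∈ p, ¬ SameEnd a (x * kk θ) := by
      have h2 : ∀ q : List G, ∀ᶠ θ in (ultU : Filter ℝ), ∀ a ∈ q, ¬ SameEnd a (x * kk θ) := by
        intro q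
        induction q with
        | nil => simp
        | cons b q ihq =>
          filter_upwards [ihq, ultU_le (not_sameEnd_kk x b)] with θ h3 h4
          intro a ha
          rcases List.mem_cons.mp ha with rfl | ha
          · exact h4
          · exact h3 a ha
      exact h2 p
    filter_upwards [h1] with θ hθ
    refine ih (x * kk θ :: p) _ _ fun m hm hg hp => ?_
    apply h
    · rw [List.length_cons, List.length_cons, hm]
    · exact List.pairwise_cons.mpr ⟨fun b hb => hp _ List.mem_cons_self b hb, hg⟩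
    · intro a ha b hb
      rcases List.mem_cons.mp hb with rfl | hb
      · exact hθ a ha
      · exact hp a (List.mem_cons_of_mem _ ha) b hb

theorem ult_cont_cons {Φ : List G → ℝ} (h : LC Φ) (x : G) : LC fun m => Φ (x :: m) := by
  intro k
  have h1 : (fun v : Fin k → G => Φ (x :: List.ofFn v)) =
      fun v : Fin k → G => Φ (List.ofFn (Fin.cons x v : Fin (k + 1) → G)) := by
    funext v
    rw [List.ofFn_succ]
    simp
  rw [h1]
  refine (h (k + 1)).comp ?_
  refine continuous_pi fun i => ?_
  refine Fin.cases ?_ (fun j => ?_) i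
  · simpa using continuous_const
  · simpa using continuous_apply j

theorem ult_cont_first {Φ : List G → ℝ} (h : LC Φ) (l : List G) :
    Continuous fun y : G => Φ (y :: l) := by
  have h1 : (fun y : G => Φ (y :: l)) =
      fun y : G => Φ (List.ofFn (Fin.cons y l.get : Fin (l.length + 1) → G)) := by
    funext y
    rw [List.ofFn_succ]
    simp
  rw [h1]
  refine (h (l.length + 1)).comp ?_
  refine continuous_pi fun i => ?_
  refine Fin.cases ?_ (fun j => ?_) i
  · simpa using continuous_id'
  · simpa using continuous_const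

theorem ult_cont (l : List G) : ∀ Φ : List G → ℝ, LC Φ → tens ultT Φ l = Φ l := by
  induction l with
  | nil => intro Φ _; rfl
  | cons x l ih =>
    intro Φ h
    simp only [tens, ultT]
    apply ultLm_eq
    have h1 : (fun θ => tens ultT (fun m => Φ (x * kk θ :: m)) l) =
        fun θ => Φ (x * kk θ :: l) := by
      funext θ
      exact ih _ (ult_cont_cons h _)
    rw [h1]
    have h2 : Continuous fun θ : ℝ => Φ (x * kk θ :: l) :=
      (ult_cont_first h l).comp (continuous_const.mul continuous_kk)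
    have h3 := h2.tendsto 0
    rw [kk_zero, mul_one] at h3
    exact h3.mono_left (ultU_le.trans nhdsWithin_le_nhds)

theorem ult_sameEnd (g a b : G) : SameEnd (g * a) (g * b) ↔ SameEnd a b := by
  unfold SameEnd
  rw [mul_inv_rev, mul_assoc, inv_mul_cancel_left]

theorem ult_generic (g : G) (Y : List G) : Generic (Y.map (g * ·)) ↔ Generic Y := by
  unfold Generic
  rw [List.pairwise_map]
  simp only [ult_sameEnd]

open Classical in
theorem ultra {N : ℕ} (ψ c : List G → ℝ) (M : ℝ) (hc : LC c)
    (hb : ∀ Y, Generic Y → Y.length = N + 1 → |ψ Y| ≤ M)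
    (hi : ∀ (g : G) Y, ψ (Y.map (g * ·)) = ψ Y)
    (hd : ∀ W, Generic W → W.length = N + 2 → dl ψ W = c W) :
    ∃ h : List G → ℝ, (∀ l, |h l| ≤ |M|) ∧ (∀ (g : G) l, h (l.map (g * ·)) = h l) ∧
      ∀ W, W.length = N + 2 → dl h W = c W := by
  set ψ' : List G → ℝ := fun Y => if Generic Y ∧ Y.length = N + 1 then ψ Y else 0 with hψ'
  have hb' : ∀ Y, |ψ' Y| ≤ |M| := by
    intro Y
    simp only [hψ']
    split_ifs with h
    · exact (hb Y h.1 h.2).trans (le_abs_self M)
    · rw [abs_zero]
      exact abs_nonneg M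
  have hi' : ∀ (g : G) Y, ψ' (Y.map (g * ·)) = ψ' Y := by
    intro g Y
    simp only [hψ', ult_generic, List.length_map, hi]
  refine ⟨tens ultT ψ', fun l => ult_tens_bdd l ψ' |M| fun m _ => hb' m, ?_, ?_⟩
  · intro g l
    rw [← ult_inv]
    congr 1
    funext m
    exact hi' g m
  · intro W hW
    rw [← ult_lin.tens_dl W ψ' fun k => ⟨|M|, fun l _ => hb' l⟩, ult_gen W [] (dl ψ') c ?_,
      ult_cont W c hc]
    intro m hm hg _
    rw [← hd m hg (hm.trans hW)]
    unfold dl
    refine Finset.sum_congr rfl fun i hi => ?_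
    have h1 : Generic (m.eraseIdx i) := List.Pairwise.sublist (List.eraseIdx_sublist m i) hg
    have h2 : (m.eraseIdx i).length = N + 1 := by
      rw [List.length_eraseIdx_of_lt (Finset.mem_range.mp hi), hm, hW]
      rfl
    simp only [hψ']
    rw [if_pos ⟨h1, h2⟩]

end Pool.Agent.Helper87.BCR
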