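import Pool.Agent.Helper87.BCR.Transfer
import Pool.Agent.Helper87.BCR.Ultra
import Pool.Agent.Helper87.BCR.Smo
import Pool.Agent.Helper87.BCR.Conv

/-!
# Project BC, block RED: the reduction
-/

open scoped MatrixGroups UpperHalfPlane Topology
open MeasureTheory

namespace Pool.Agent.Helper87.BCR
open Pool.Agent.Helper11.BC

theorem reduction_cont {N : ℕ}
    (H : ∀ (b : List ℍ → ℝ) (M : ℝ), IsCoc (N + 1) b M →
      ∃ (ψ : List G → ℝ) (M' : ℝ), (∀ Y, Generic Y → Y.length = N + 1 → |ψ Y| ≤ M') ∧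
        (∀ (g : G) Y, ψ (Y.map (g * ·)) = ψ Y) ∧
        ∀ W, Generic W → W.length = N + 2 → dl ψ W = sm b (W.map pos))
    (b : (Fin (N + 2) → G) → ℝ) (hc : Continuous b)
    (hi : ∀ (g : G) (x : Fin (N + 2) → G), b (fun j => g * x j) = b x)
    (hb : ∃ C : ℝ, ∀ x, |b x| ≤ C)
    (hz : ∀ x : Fin (N + 3) → G,
      ∑ i : Fin (N + 3), (-1 : ℝ) ^ (i : ℕ) * b (fun j => x (Fin.succAbove i j)) = 0) :
    ∃ h : (Fin (N + 1) → G) → ℝ, Continuous h ∧
      (∀ (g : G) (x : Fin (N + 1) → G), h (fun j => g * x j) = h x) ∧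
      (∃ C : ℝ, ∀ x, |h x| ≤ C) ∧
      ∀ x : Fin (N + 2) → G,
        b x = ∑ i : Fin (N + 2), (-1 : ℝ) ^ (i : ℕ) * h (fun j => x (Fin.succAbove i j)) := by
  obtain ⟨C₀, hC₀⟩ := hb
  obtain ⟨B, hBc, hBb, hBi, hBd, hB⟩ := exists_list b hc hi |C₀| (abs_nonneg _)
    (fun x => (hC₀ x).trans (le_abs_self _)) hz
  obtain ⟨B', hB', hBd', hB'B⟩ := exists_descent N B |C₀| hBc hBb hBi hBd
  obtain ⟨ψ, M', h1, h2, h3⟩ := H B' |C₀| hB'
  have hB'c : LC B' := hB'.cont
  have hB'b : LB B' := LB.of_bdd hB'.bdd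
  have hBlb : LB B := LB.of_bdd hBb
  have hgs : ∀ (g : G) (f : ℍ → ℝ) (M : ℝ), Continuous f → (∀ x, |f x| ≤ M) →
      ∀ x, T2 (fun y => f (g • y)) x = T2 f (g • x) := fun g f _ _ _ x => T2_smul f g x
  have hgm : ∀ (g : G) (f : G → ℝ) (M : ℝ), Continuous f → (∀ x, |f x| ≤ M) →
      ∀ x, T1 (fun y => f (g * y)) x = T1 f (g * x) := fun g f _ _ _ x => T1_left f g x
  have hmp : ∀ (g : G) (l : List G), (l.map (g * ·)).map pos = (l.map pos).map (g • ·) := by
    intro g l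
    rw [List.map_map, List.map_map]
    exact List.map_congr_left fun z _ => pos_mul g z
  -- the smoothed cocycle
  let c : List G → ℝ := fun l => tens T2 B' (l.map pos)
  have LCcomp : ∀ Φ : List ℍ → ℝ, LC Φ → LC fun l : List G => Φ (l.map pos) := by
    intro Φ hΦ k
    have h2 : Continuous fun v : Fin k → G => fun i => pos (v i) :=
      continuous_pi fun i => continuous_pos.comp (continuous_apply i)
    refine ((hΦ k).comp h2).congr fun v => ?_
    show Φ (List.ofFn fun i => pos (v i)) = Φ ((List.ofFn v).map pos)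
    rw [List.map_ofFn]
    rfl
  have hcc : LC c := LCcomp _ (hB'c.tens mk_T2 hB'b)
  have hcb : ∀ l, |c l| ≤ |C₀| := fun l => tens_abs_le mk_T2 hB'c fun m _ => hB'.bdd m
  have hci : ∀ (g : G) l, c (l.map (g * ·)) = c l := by
    intro g l
    show tens T2 B' _ = tens T2 B' _
    rw [hmp, ← tens_map mk_T2 (g • ·) (hgs g) _ _ hB'c hB'b]
    have : (fun m : List ℍ => B' (m.map (g • ·))) = B' := funext fun m => hB'.inv g m
    rw [this]
  have hcd : ∀ l, dl c l = 0 := by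
    intro l
    show dl (fun l : List G => tens T2 B' (l.map pos)) l = 0
    rw [dl_map (tens T2 B') pos l, ← (Mk.lin mk_T2).tens_dl _ _ ⟨hB'c, hB'b⟩]
    have : dl B' = fun _ => 0 := funext hBd'
    rw [this]
    exact tens_zero (fun x => mk_T2.const 0 x) _
  obtain ⟨h₁, h1b, h1i, h1d⟩ := ultra (N := N) ψ c M' hcc h1 h2 (fun W hW hl => by
    rw [h3 W hW hl, sm_eq])
  obtain ⟨h₂, h2c, h2b, h2i, h2d⟩ := transfer (N := N) c h₁ (max |C₀| |M'|) hcc
    (fun l => (hcb l).trans (le_max_left _ _)) hci hcd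
    (fun l => (h1b l).trans (le_max_right _ _)) h1i h1d
  -- the final primitive
  let P2 : List G → ℝ := fun l => pri T2 B' (l.map pos)
  let h₃ : List G → ℝ := fun l => (h₂ l - P2 l) - pri T1 B l
  have hP2c : LC P2 := LCcomp _ (hB'c.pri mk_T2 hB'b)
  have h3c : LC h₃ := (h2c.sub hP2c).sub (hBc.pri mk_T1 hBlb)
  have h3b : LB h₃ := by
    intro k
    obtain ⟨M, hM⟩ := h2b k
    refine ⟨M + k * |C₀| + k * |C₀|, fun l hl => ?_⟩
    refine (abs_sub _ _).trans (add_le_add ((abs_sub _ _).trans (add_le_add (hM l hl) ?_)) ?_)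
    · have := pri_abs_le (l := l.map pos) mk_T2 hB'c hB'.bdd
      rwa [List.length_map, hl] at this
    · have := pri_abs_le (l := l) mk_T1 hBc hBb
      rwa [hl] at this
  have h3i : ∀ (g : G) l, h₃ (l.map (g * ·)) = h₃ l := by
    intro g l
    have e1 : P2 (l.map (g * ·)) = P2 l := by
      show pri T2 B' _ = pri T2 B' _
      rw [hmp, ← pri_map mk_T2 (g • ·) (hgs g) _ _ hB'c hB'b]
      have : (fun m : List ℍ => B' (m.map (g • ·))) = B' := funext fun m => hB'.inv g m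
      rw [this]
    have e2 : pri T1 B (l.map (g * ·)) = pri T1 B l := by
      rw [← pri_map mk_T1 (g * ·) (hgm g) _ _ hBc hBlb]
      have : (fun m : List G => B (m.map (g * ·))) = B := funext fun m => hBi g m
      rw [this]
    show (h₂ _ - P2 _) - pri T1 B _ = (h₂ l - P2 l) - pri T1 B l
    rw [e1, e2, h2i]
  have h3d : ∀ W : List G, W.length = N + 2 → dl h₃ W = B W := by
    intro W hW
    have e1 : dl h₃ W = (dl h₂ W - dl P2 W) - dl (pri T1 B) W := by
      have a1 : dl h₃ W = dl (fun l => h₂ l - P2 l) W - dl (pri T1 B) W := dl_sub _ _ _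
      rw [a1, dl_sub]
    have e2 : dl P2 W = tens T2 B' (W.map pos) - B' (W.map pos) := by
      show dl (fun l : List G => pri T2 B' (l.map pos)) W = _
      rw [dl_map (pri T2 B') pos W, prism_of_dl_eq_zero mk_T2 hB'c hB'b hBd']
    rw [e1, e2, h2d W hW, prism_of_dl_eq_zero mk_T1 hBc hBlb hBd, hB'B]
    show (tens T2 B' (W.map pos) - _) - _ = _
    ring
  refine ⟨fun x => h₃ (List.ofFn x), h3c (N + 1), ?_, ?_, ?_⟩
  · intro g x
    have := h3i g (List.ofFn x)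
    rw [List.map_ofFn] at this
    exact this
  · obtain ⟨M, hM⟩ := h3b (N + 1)
    exact ⟨M, fun x => hM _ (by simp)⟩
  · intro x
    rw [← hB x, ← h3d (List.ofFn x) (by simp), dl_ofFn]

theorem reduction {N : ℕ}
    (H : ∀ (b : List ℍ → ℝ) (M : ℝ), IsCoc (N + 1) b M →
      ∃ (ψ : List G → ℝ) (M' : ℝ), (∀ Y, Generic Y → Y.length = N + 1 → |ψ Y| ≤ M') ∧
        (∀ (g : G) Y, ψ (Y.map (g * ·)) = ψ Y) ∧
        ∀ W, Generic W → W.length = N + 2 → dl ψ W = sm b (W.map pos))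
    (b : (Fin (N + 2) → G) → ℝ) (hc : Continuous b)
    (hi : ∀ (g : G) (x : Fin (N + 2) → G), b (fun j => g * x j) = b x)
    (hb : ∃ C : ℝ, ∀ x, |b x| ≤ C)
    (hz : ∀ x : Fin (N + 3) → G,
      ∑ i : Fin (N + 3), (-1 : ℝ) ^ (i : ℕ) * b (fun j => x (Fin.succAbove i j)) = 0) :
    ∃ h : (Fin (N + 1) → G) → ℝ,
      (∀ (g : G) (x : Fin (N + 1) → G), h (fun j => g * x j) = h x) ∧
      (∃ C : ℝ, ∀ x, |h x| ≤ C) ∧
      ∀ x : Fin (N + 2) → G,
        b x = ∑ i : Fin (N + 2), (-1 : ℝ) ^ (i : ℕ) * h (fun j => x (Fin.succAbove i j)) := by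
  obtain ⟨h, _, h1, h2, h3⟩ := reduction_cont H b hc hi hb hz
  exact ⟨h, h1, h2, h3⟩

end Pool.Agent.Helper87.BCR
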