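import Pool.Agent.Helper87.BCR.Basic

/-!
# Project BC, block RED: the standard domain has finite Haar measure (piece BC-RED-SIEGEL)

Let `x g = (pos g).re`, `y g = (pos g).im` (continuous; `pos g = g • I`, continuous action
`UpperHalfPlane.instContinuousSMulSL2R`).  For `n s = !![1, s; 0, 1]` and
`a t = !![exp (t/2), 0; 0, exp (-t/2)]` (or `!![√t, 0; 0, 1/√t]`): `pos (n s * g) = pos g + s` and
`pos (a t * g) = exp t * pos g`.
* `K = {g : |x g| ≤ 2 ∧ 1/2 ≤ y g ≤ 1}` is compact: it is the preimage of a compact subset of `ℍ`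
  under the proper map `UpperHalfPlane.isProperMap_smul_I`; so `μ K < ∞`.
* For `j : ℕ` let `R j = {g : 0 ≤ x g < 2^(-j), 1/2 ≤ y g < 1}`.  The translates
  `n (i / 2^j) * R j`, `i = 0, .., 2^j - 1`, are pairwise disjoint, measurable, contained in `K`, and
  have the measure of `R j` (left invariance), so `2^j * μ (R j) ≤ μ K`.
* `S j = {g : -1/2 ≤ x g < 1/2 + .. , 2^(j-1) ≤ y g < 2^j}`: multiplication by `a` (scaling by
  `2^(-j)`) maps it to `{|x| ≤ 2^(-j) / 2, 1/2 ≤ y < 1}`, which is contained in the union of two left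
  translates of `R j` (up to the end point, contained in the union of three), so
  `μ (S j) ≤ 3 μ (R j) ≤ 3 * 2^(-j) * μ K`.
* On `ModularGroup.fd = {z : 1 ≤ normSq z, |re z| ≤ 1/2}` one has `im z ≥ 1/2`
  (`(im z)^2 ≥ 3/4`), so the set in question is contained in the union of the `S j`, `j ≥ 0`, and
  `∑ 3 * 2^(-j) * μ K < ∞` (`measure_iUnion_le`, `ENNReal.tsum_geometric` or similar).
-/

open scoped MatrixGroups UpperHalfPlane Topology
open MeasureTheory

namespace Pool.Agent.Helper87.BCR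
open Pool.Agent.Helper11.BC

attribute [local instance] mG bG

/-- Affine maps: `z ↦ t z + s`. -/
private noncomputable def aff (t s : ℝ) (ht : 0 < t) : G :=
  ⟨!![√t, s / √t; 0, 1 / √t], by
    have h : √t ≠ 0 := (Real.sqrt_pos.2 ht).ne'
    rw [Matrix.det_fin_two_of]
    field_simp
    ring⟩

private theorem aff_smul (t s : ℝ) (ht : 0 < t) (z : ℍ) :
    ((aff t s ht • z : ℍ) : ℂ) = t * (z : ℂ) + s := by
  have h : √t ≠ 0 := (Real.sqrt_pos.2 ht).ne'
  have h' : ((√t : ℝ) : ℂ) ≠ 0 := by exact_mod_cast h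
  have h2 : ((√t : ℝ) : ℂ) * ((√t : ℝ) : ℂ) = (t : ℂ) := by
    rw [← Complex.ofReal_mul, Real.mul_self_sqrt ht.le]
  rw [UpperHalfPlane.coe_specialLinearGroup_apply]
  have e00 : (aff t s ht) 0 0 = √t := rfl
  have e01 : (aff t s ht) 0 1 = s / √t := rfl
  have e10 : (aff t s ht) 1 0 = 0 := rfl
  have e11 : (aff t s ht) 1 1 = 1 / √t := rfl
  rw [e00, e01, e10, e11]
  simp only [Algebra.algebraMap_self, RingHom.id_apply]
  push_cast
  field_simp
  rw [← h2]
  ring

private theorem pos_aff_re (t s : ℝ) (ht : 0 < t) (g : G) :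
    (pos (aff t s ht * g)).re = t * (pos g).re + s := by
  have h : pos (aff t s ht * g) = aff t s ht • pos g := by
    simp only [pos, mul_smul]
  have h2 := congrArg Complex.re (aff_smul t s ht (pos g))
  rw [← h] at h2
  simpa using h2

private theorem pos_aff_im (t s : ℝ) (ht : 0 < t) (g : G) :
    (pos (aff t s ht * g)).im = t * (pos g).im := by
  have h : pos (aff t s ht * g) = aff t s ht • pos g := by
    simp only [pos, mul_smul]
  have h2 := congrArg Complex.im (aff_smul t s ht (pos g))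
  rw [← h] at h2
  simpa using h2

private def W (a b c d : ℝ) : Set G :=
  {g | (a ≤ (pos g).re ∧ (pos g).re < b) ∧ (c ≤ (pos g).im ∧ (pos g).im < d)}

private theorem continuous_pos' : Continuous (pos : G → ℍ) := by
  unfold pos
  exact continuous_id.smul continuous_const

private theorem continuous_re' : Continuous (fun g : G => (pos g).re) :=
  UpperHalfPlane.continuous_re.comp continuous_pos'

private theorem continuous_im' : Continuous (fun g : G => (pos g).im) :=
  UpperHalfPlane.continuous_im.comp continuous_pos'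

private theorem measurableSet_W (a b c d : ℝ) : MeasurableSet (W a b c d) := by
  have h1 : MeasurableSet {g : G | a ≤ (pos g).re} :=
    (isClosed_le continuous_const continuous_re').measurableSet
  have h2 : MeasurableSet {g : G | (pos g).re < b} :=
    (isOpen_lt continuous_re' continuous_const).measurableSet
  have h3 : MeasurableSet {g : G | c ≤ (pos g).im} :=
    (isClosed_le continuous_const continuous_im').measurableSet
  have h4 : MeasurableSet {g : G | (pos g).im < d} :=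
    (isOpen_lt continuous_im' continuous_const).measurableSet
  exact (h1.inter h2).inter (h3.inter h4)

private theorem measure_aff (μ : Measure G) [μ.IsMulLeftInvariant] (t s : ℝ) (ht : 0 < t)
    (a b c d : ℝ) : μ (W ((a - s) / t) ((b - s) / t) (c / t) (d / t)) = μ (W a b c d) := by
  have h := measure_preimage_mul μ (aff t s ht) (W a b c d)
  rw [← h]
  congr 1
  ext g
  simp only [W, Set.mem_ofPred_eq, Set.mem_preimage, pos_aff_re, pos_aff_im]
  rw [div_le_iff₀ ht, lt_div_iff₀ ht, div_le_iff₀ ht, lt_div_iff₀ ht]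
  constructor
  · rintro ⟨⟨h1, h2⟩, h3, h4⟩
    refine ⟨⟨by linarith, by linarith⟩, by linarith, by linarith⟩
  · rintro ⟨⟨h1, h2⟩, h3, h4⟩
    refine ⟨⟨by linarith, by linarith⟩, by linarith, by linarith⟩

private def K : Set G :=
  {g | (-2 ≤ (pos g).re ∧ (pos g).re ≤ 2) ∧ (1 / 2 ≤ (pos g).im ∧ (pos g).im ≤ 1)}

private theorem isCompact_K : IsCompact K := by
  have hc : IsCompact {z : ℍ | (-2 ≤ z.re ∧ z.re ≤ 2) ∧ (1 / 2 ≤ z.im ∧ z.im ≤ 1)} := by
    rw [UpperHalfPlane.isEmbedding_coe.isCompact_iff]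
    have h : IsCompact ((Set.Icc (-2 : ℝ) 2) ×ℂ (Set.Icc (1 / 2 : ℝ) 1)) :=
      isCompact_Icc.reProdIm isCompact_Icc
    convert h using 1
    ext w
    simp only [Set.mem_image, Set.mem_ofPred_eq, Complex.mem_reProdIm, Set.mem_Icc]
    constructor
    · rintro ⟨z, hz, rfl⟩
      exact hz
    · intro hw
      exact ⟨⟨w, lt_of_lt_of_le (by norm_num) hw.2.1⟩, hw, rfl⟩
  exact UpperHalfPlane.isProperMap_smul_I.isCompact_preimage hc

private theorem pow_mul_measure_le (μ : Measure G) [μ.IsMulLeftInvariant] (j : ℕ) :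
    (2 : ENNReal) ^ j * μ (W 0 (1 / 2 ^ j) (1 / 2) 1) ≤ μ K := by
  have hp : (0 : ℝ) < 2 ^ j := by positivity
  have hT : ∀ i : ℕ, μ (W (i / 2 ^ j) ((i + 1) / 2 ^ j) (1 / 2) 1)
      = μ (W 0 (1 / 2 ^ j) (1 / 2) 1) := by
    intro i
    have h := measure_aff μ 1 (i / 2 ^ j) one_pos (i / 2 ^ j) ((i + 1) / 2 ^ j) (1 / 2) 1
    rw [← h]
    congr 2
    · simp
    · rw [div_one, ← sub_div]
      congr 1
      ring
    · simp
    · simp
  have hd : Pairwise (Function.onFun Disjoint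
      fun i : Fin (2 ^ j) => W ((i : ℕ) / 2 ^ j) (((i : ℕ) + 1) / 2 ^ j) (1 / 2) 1) := by
    intro i k hik
    rw [Function.onFun, Set.disjoint_left]
    rintro g ⟨⟨h1, h2⟩, -⟩ ⟨⟨h3, h4⟩, -⟩
    have h5 : ((i : ℕ) : ℝ) / 2 ^ j < ((k : ℕ) + 1) / 2 ^ j := lt_of_le_of_lt h1 h4
    have h6 : ((k : ℕ) : ℝ) / 2 ^ j < ((i : ℕ) + 1) / 2 ^ j := lt_of_le_of_lt h3 h2
    rw [div_lt_div_iff_of_pos_right hp] at h5 h6
    have h7 : (i : ℕ) < (k : ℕ) + 1 := by exact_mod_cast h5
    have h8 : (k : ℕ) < (i : ℕ) + 1 := by exact_mod_cast h6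
    exact hik (Fin.ext (by omega))
  have h1 : μ (⋃ i : Fin (2 ^ j), W ((i : ℕ) / 2 ^ j) (((i : ℕ) + 1) / 2 ^ j) (1 / 2) 1)
      = (2 : ENNReal) ^ j * μ (W 0 (1 / 2 ^ j) (1 / 2) 1) := by
    rw [measure_iUnion hd fun i => measurableSet_W _ _ _ _, tsum_fintype]
    simp only [hT, Finset.sum_const, Finset.card_univ, Fintype.card_fin, nsmul_eq_mul]
    push_cast
    rfl
  rw [← h1]
  refine measure_mono (Set.iUnion_subset fun i => ?_)
  rintro g ⟨⟨h1, h2⟩, h3, h4⟩
  have h5 : (0 : ℝ) ≤ ((i : ℕ) : ℝ) / 2 ^ j := by positivity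
  have h6 : (((i : ℕ) : ℝ) + 1) / 2 ^ j ≤ 1 := by
    rw [div_le_one hp]
    exact_mod_cast i.2
  exact ⟨⟨by linarith, by linarith⟩, h3, h4.le⟩

private theorem measure_le (μ : Measure G) [μ.IsMulLeftInvariant] (j : ℕ) :
    μ (W 0 (1 / 2 ^ j) (1 / 2) 1) ≤ μ K / 2 ^ j := by
  rw [ENNReal.le_div_iff_mul_le (Or.inl (by positivity)) (Or.inl (by simp))]
  rw [mul_comm]
  exact pow_mul_measure_le μ j

private theorem measure_W0 (μ : Measure G) [μ.IsMulLeftInvariant] (j : ℕ) :
    μ (W 0 1 (2 ^ j / 2) (2 ^ j)) = μ (W 0 (1 / 2 ^ j) (1 / 2) 1) := by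
  have hp : (0 : ℝ) < 2 ^ j := by positivity
  have h := measure_aff μ (1 / 2 ^ j) 0 (by positivity) 0 (1 / 2 ^ j) (1 / 2) 1
  rw [← h]
  congr 2
  · simp
  · rw [sub_zero, div_self (by positivity)]
  · field_simp
  · field_simp

private theorem measure_W1 (μ : Measure G) [μ.IsMulLeftInvariant] (j : ℕ) :
    μ (W (-1) 0 (2 ^ j / 2) (2 ^ j)) = μ (W 0 (1 / 2 ^ j) (1 / 2) 1) := by
  have hp : (0 : ℝ) < 2 ^ j := by positivity
  have h := measure_aff μ (1 / 2 ^ j) (1 / 2 ^ j) (by positivity) 0 (1 / 2 ^ j) (1 / 2) 1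
  rw [← h]
  congr 2
  · field_simp
    norm_num
  · simp
  · field_simp
  · field_simp

theorem siegel_finite (μ : Measure G) [μ.IsMulLeftInvariant] [IsFiniteMeasureOnCompacts μ] :
    μ {g : G | pos g ∈ ModularGroup.fd} < ⊤ := by
  have hsub : {g : G | pos g ∈ ModularGroup.fd} ⊆
      ⋃ j : ℕ, (W (-1) 0 (2 ^ j / 2) (2 ^ j) ∪ W 0 1 (2 ^ j / 2) (2 ^ j)) := by
    intro g hg
    have h3 := ModularGroup.three_le_four_mul_im_sq_of_mem_fd hg
    have hx : |(pos g).re| ≤ 1 / 2 := hg.2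
    have hy0 : 0 < (pos g).im := (pos g).im_pos
    have hy : 1 ≤ 2 * (pos g).im := by nlinarith
    obtain ⟨n, hn1, hn2⟩ := exists_nat_pow_near hy (one_lt_two : (1 : ℝ) < 2)
    have hx1 := (abs_le.1 hx).1
    have hx2 := (abs_le.1 hx).2
    have hn3 : (2 : ℝ) ^ (n + 1) = 2 * 2 ^ n := by ring
    rw [Set.mem_iUnion]
    refine ⟨n, ?_⟩
    rcases lt_or_ge (pos g).re 0 with h0 | h0
    · left
      exact ⟨⟨by linarith, h0⟩, by linarith, by linarith⟩
    · right
      exact ⟨⟨h0, by linarith⟩, by linarith, by linarith⟩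
  have hK : μ K < ⊤ := isCompact_K.measure_lt_top
  have hle : μ {g : G | pos g ∈ ModularGroup.fd} ≤ ∑' j : ℕ, 2 * (μ K / 2 ^ j) := by
    refine (measure_mono hsub).trans ((measure_iUnion_le _).trans ?_)
    refine ENNReal.tsum_le_tsum fun j => ?_
    refine (measure_union_le _ _).trans ?_
    rw [measure_W0, measure_W1, two_mul]
    exact add_le_add (measure_le μ j) (measure_le μ j)
  refine lt_of_le_of_lt hle ?_
  have he : ∀ j : ℕ, (2 : ENNReal) * (μ K / 2 ^ j) = (2 * μ K) * (2⁻¹) ^ j := by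
    intro j
    rw [div_eq_mul_inv, ENNReal.inv_pow, mul_assoc]
  simp only [he]
  rw [ENNReal.tsum_mul_left, ENNReal.tsum_geometric, ENNReal.one_sub_inv_two, inv_inv]
  exact ENNReal.mul_lt_top (ENNReal.mul_lt_top (by simp) hK) (by simp)

end Pool.Agent.Helper87.BCR
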