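import Pool.Agent.Helper87.BCR.Haar
import Pool.Agent.Helper87.BCR.Siegel

/-!
# Project BC, block RED: the invariant mean of `SL(2, ℤ) \ SL(2, ℝ)` (piece BC-RED-MEAS)

Let `μ` be the measure of `exists_haar`, `S = {g | pos g ∈ fd}` (closed, hence measurable),
`μ S < ∞` by `siegel_finite`.  `SL(2, ℤ)` is countable.
* For every `g` there is `γ` with `inc γ * g ∈ S`: `ModularGroup.exists_smul_mem_fd` (the action of
  `SL(2, ℤ)` on `ℍ` is the action of `inc γ`).
* `∫⁻ p 1 g ∂μ ≤ ∫⁻ p 1 g * ∑' γ, 1_S (inc γ * g) ∂μ = ∑' γ, ∫⁻ p 1 g * 1_S (inc γ * g) ∂μ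
  = ∑' γ, ∫⁻ p 1 (inc γ⁻¹ * g) * 1_S g ∂μ` (left invariance) `= ∑' γ, ∫⁻_S p γ g ∂μ
  = ∫⁻_S 1 = μ S < ∞` (`hp.equi`: `p 1 (inc γ⁻¹ * g) = p γ g`; `hp.sum` in `ENNReal.ofReal` form).
* So `p 1` is integrable; `Z = ∫ p 1 ∂μ > 0` (`p 1` is continuous, nonnegative, and positive
  somewhere: otherwise all `p γ = 0` by `hp.equi`, contradicting `hp.sum`; `μ` is positive on open
  sets).  `ν = (ENNReal.ofReal Z)⁻¹ • μ.withDensity (fun g => ENNReal.ofReal (p 1 g))`.
* Let `F` be continuous, bounded, left `SL(2, ℤ)`-invariant.  `∫ F (y * x) ∂ν` is `1/Z` times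
  `∫ p 1 y * F (y * x) ∂μ = ∫ p 1 (y * x⁻¹) * F y ∂μ` (right invariance)
  `= ∫ ∑' γ, p γ y * p 1 (y * x⁻¹) * F y ∂μ = ∑' γ, ∫ p γ y * p 1 (y * x⁻¹) * F y ∂μ`
  (`hasSum_integral_of_summable_integral_norm` or `integral_tsum`; the sum of the norms is
  `≤ M ∫ p 1 (y * x⁻¹)`) `= ∑' γ, ∫ p 1 y * p γ⁻¹ (y * x⁻¹) * F y ∂μ` (substitute
  `y = inc γ * y'`, left invariance, `hp.equi`, invariance of `F`)
  `= ∫ p 1 y * F y * (∑' γ, p γ⁻¹ (y * x⁻¹)) ∂μ = ∫ p 1 y * F y ∂μ`.
-/

open scoped MatrixGroups UpperHalfPlane Topology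
open MeasureTheory

namespace Pool.Agent.Helper87.BCR
open Pool.Agent.Helper11.BC

attribute [local instance] mG bG

private theorem Meas_countable : Countable SL(2, ℤ) := by
  have : Countable (Matrix (Fin 2) (Fin 2) ℤ) :=
    inferInstanceAs (Countable (Fin 2 → Fin 2 → ℤ))
  exact inferInstanceAs (Countable {A : Matrix (Fin 2) (Fin 2) ℤ // A.det = 1})

private theorem Meas_inv (φ : SL(2, ℤ) → ENNReal) : ∑' γ, φ γ⁻¹ = ∑' γ, φ γ :=
  (Equiv.inv SL(2, ℤ)).tsum_eq φ

/-- The unfolding identity. -/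
private theorem Meas_unfold (μ : Measure G) [μ.IsMulLeftInvariant] {a b : G → ENNReal}
    (ha : Measurable a) (hb : Measurable b) :
    ∫⁻ y, a y * ∑' γ : SL(2, ℤ), b (inc γ * y) ∂μ =
      ∫⁻ y, (∑' γ : SL(2, ℤ), a (inc γ * y)) * b y ∂μ := by
  have := Meas_countable
  have := bG
  have hm : ∀ (c : G → ENNReal), Measurable c → ∀ γ : SL(2, ℤ), Measurable fun y => c (inc γ * y) :=
    fun c hc γ => hc.comp (measurable_const_mul (inc γ))
  calc ∫⁻ y, a y * ∑' γ : SL(2, ℤ), b (inc γ * y) ∂μ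
      = ∫⁻ y, ∑' γ : SL(2, ℤ), a y * b (inc γ * y) ∂μ := by
        refine lintegral_congr fun y => ?_
        rw [ENNReal.tsum_mul_left]
    _ = ∑' γ : SL(2, ℤ), ∫⁻ y, a y * b (inc γ * y) ∂μ :=
        lintegral_tsum fun γ => (ha.mul (hm b hb γ)).aemeasurable
    _ = ∑' γ : SL(2, ℤ), ∫⁻ y, a (inc γ⁻¹ * y) * b y ∂μ := by
        refine tsum_congr fun γ => ?_
        rw [← lintegral_mul_left_eq_self (fun y => a y * b (inc γ * y)) (inc γ⁻¹)]
        refine lintegral_congr fun y => ?_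
        rw [← mul_assoc, ← inc_mul, mul_inv_cancel, inc_one, one_mul]
    _ = ∑' γ : SL(2, ℤ), ∫⁻ y, a (inc γ * y) * b y ∂μ :=
        Meas_inv fun γ => ∫⁻ y, a (inc γ * y) * b y ∂μ
    _ = ∫⁻ y, ∑' γ : SL(2, ℤ), a (inc γ * y) * b y ∂μ :=
        (lintegral_tsum fun γ => ((hm a ha γ).mul hb).aemeasurable).symm
    _ = _ := by
        refine lintegral_congr fun y => ?_
        rw [ENNReal.tsum_mul_right]

private theorem Meas_inv_mean (μ : Measure G) [μ.IsMulLeftInvariant] [μ.IsMulRightInvariant]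
    {Q f : G → ENNReal} (hQ : Measurable Q) (hf : Measurable f)
    (hs : ∀ g, ∑' γ : SL(2, ℤ), Q (inc γ * g) = 1)
    (hi : ∀ (δ : SL(2, ℤ)) (g : G), f (inc δ * g) = f g) (x : G) :
    ∫⁻ y, Q y * f (y * x) ∂μ = ∫⁻ y, Q y * f y ∂μ := by
  have := bG
  have hQx : Measurable fun y => Q (y * x⁻¹) := hQ.comp (measurable_mul_const x⁻¹)
  calc ∫⁻ y, Q y * f (y * x) ∂μ = ∫⁻ y, Q (y * x⁻¹) * f y ∂μ := by
        rw [← lintegral_mul_right_eq_self (fun y => Q y * f (y * x)) x⁻¹]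
        refine lintegral_congr fun y => ?_
        rw [inv_mul_cancel_right]
    _ = ∫⁻ y, (Q (y * x⁻¹) * f y) * ∑' γ : SL(2, ℤ), Q (inc γ * y) ∂μ := by
        refine lintegral_congr fun y => ?_
        rw [hs, mul_one]
    _ = ∫⁻ y, (∑' γ : SL(2, ℤ), Q (inc γ * y * x⁻¹) * f (inc γ * y)) * Q y ∂μ :=
        Meas_unfold μ (hQx.mul hf) hQ
    _ = ∫⁻ y, Q y * f y ∂μ := by
        refine lintegral_congr fun y => ?_
        have h1 : ∑' γ : SL(2, ℤ), Q (inc γ * y * x⁻¹) * f (inc γ * y) = f y := by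
          have h2 : ∀ γ : SL(2, ℤ), Q (inc γ * y * x⁻¹) * f (inc γ * y) =
              Q (inc γ * (y * x⁻¹)) * f y := fun γ => by rw [hi, mul_assoc]
          rw [tsum_congr h2, ENNReal.tsum_mul_right, hs, one_mul]
        rw [h1, mul_comm]

private theorem Meas_pos (g : G) : ∃ γ : SL(2, ℤ), pos (inc γ * g) ∈ ModularGroup.fd := by
  obtain ⟨γ, hγ⟩ := ModularGroup.exists_smul_mem_fd (pos g)
  refine ⟨γ, ?_⟩
  have h1 : pos (inc γ * g) = γ • pos g := by
    unfold pos
    rw [mul_smul]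
    rfl
  rw [h1]
  exact hγ

private theorem Meas_finite (μ : Measure G) [μ.IsMulLeftInvariant]
    [IsFiniteMeasureOnCompacts μ] {Q : G → ENNReal} (hQ : Measurable Q)
    (hs : ∀ g, ∑' γ : SL(2, ℤ), Q (inc γ * g) = 1) : ∫⁻ y, Q y ∂μ < ⊤ := by
  have := bG
  have hpc : Continuous pos := by
    unfold pos
    exact continuous_id.smul continuous_const
  have hS : MeasurableSet {g : G | pos g ∈ ModularGroup.fd} :=
    (ModularGroup.isClosed_fd.preimage hpc).measurableSet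
  have hb : Measurable (Set.indicator {g : G | pos g ∈ ModularGroup.fd} (1 : G → ENNReal)) :=
    measurable_one.indicator hS
  calc ∫⁻ y, Q y ∂μ ≤ ∫⁻ y, Q y * ∑' γ : SL(2, ℤ),
        Set.indicator {g : G | pos g ∈ ModularGroup.fd} (1 : G → ENNReal) (inc γ * y) ∂μ := by
        refine lintegral_mono fun y => ?_
        obtain ⟨γ, hγ⟩ := Meas_pos y
        have h1 : (1 : ENNReal) ≤ ∑' γ : SL(2, ℤ),
            Set.indicator {g : G | pos g ∈ ModularGroup.fd} (1 : G → ENNReal) (inc γ * y) := by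
          refine le_trans ?_ (ENNReal.le_tsum γ)
          rw [Set.indicator_of_mem (by exact hγ)]
          exact le_rfl
        calc Q y = Q y * 1 := (mul_one _).symm
          _ ≤ _ := mul_le_mul_right h1 (Q y)
    _ = ∫⁻ y, (∑' γ : SL(2, ℤ), Q (inc γ * y)) *
        Set.indicator {g : G | pos g ∈ ModularGroup.fd} (1 : G → ENNReal) y ∂μ :=
        Meas_unfold μ hQ hb
    _ = ∫⁻ y, Set.indicator {g : G | pos g ∈ ModularGroup.fd} (1 : G → ENNReal) y ∂μ := by
        refine lintegral_congr fun y => ?_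
        rw [hs, one_mul]
    _ = μ {g : G | pos g ∈ ModularGroup.fd} := lintegral_indicator_one hS
    _ < ⊤ := siegel_finite μ

theorem exists_measure {p : SL(2, ℤ) → G → ℝ} (hp : IsWeight p) :
    ∃ ν : Measure G, IsProbabilityMeasure ν ∧
      ∀ F : G → ℝ, Continuous F → (∃ M : ℝ, ∀ g, |F g| ≤ M) →
        (∀ (δ : SL(2, ℤ)) (g : G), F (inc δ * g) = F g) →
        ∀ x : G, ∫ y, F (y * x) ∂ν = ∫ y, F y ∂ν := by
  have := bG
  have := Meas_countable
  obtain ⟨μ, hL, hR, hK, hO, hσ⟩ := exists_haar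
  set Q : G → ENNReal := fun g => ENNReal.ofReal (p 1 g) with hQdef
  have hQc : Continuous Q := ENNReal.continuous_ofReal.comp (hp.cont 1)
  have hQ : Measurable Q := hQc.measurable
  have hs : ∀ g, ∑' γ : SL(2, ℤ), Q (inc γ * g) = 1 := by
    intro g
    have h1 : ∀ γ : SL(2, ℤ), Q (inc γ⁻¹ * g) = ENNReal.ofReal (p γ g) := by
      intro γ
      have h2 := hp.equi 1 γ (inc γ⁻¹ * g)
      rw [mul_one, ← mul_assoc, ← inc_mul, mul_inv_cancel, inc_one, one_mul] at h2
      rw [hQdef, h2]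
    rw [← Meas_inv fun γ => Q (inc γ * g), tsum_congr h1,
      ← ENNReal.ofReal_tsum_of_nonneg (fun γ => hp.nonneg γ g) (hp.sum g).summable,
      (hp.sum g).tsum_eq, ENNReal.ofReal_one]
  have hfin : ∫⁻ y, Q y ∂μ ≠ ⊤ := (Meas_finite μ hQ hs).ne
  have hne : ∫⁻ y, Q y ∂μ ≠ 0 := by
    intro h0
    rw [lintegral_eq_zero_iff hQ] at h0
    have h1 : Q = fun _ => 0 := (Continuous.ae_eq_iff_eq μ hQc continuous_const).1 h0
    have h2 := hs 1
    rw [h1] at h2
    simp at h2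
  set Z : ENNReal := ∫⁻ y, Q y ∂μ with hZ
  set ν : Measure G := Z⁻¹ • μ.withDensity Q with hν
  have hprob : IsProbabilityMeasure ν := by
    refine ⟨?_⟩
    rw [hν, Measure.smul_apply, withDensity_apply _ MeasurableSet.univ, Measure.restrict_univ,
      smul_eq_mul]
    exact ENNReal.inv_mul_cancel hne hfin
  have hl : ∀ f : G → ENNReal, Measurable f → ∫⁻ y, f y ∂ν = Z⁻¹ * ∫⁻ y, Q y * f y ∂μ := by
    intro f hf
    rw [hν, lintegral_smul_measure, lintegral_withDensity_eq_lintegral_mul μ hQ hf, smul_eq_mul]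
    rfl
  refine ⟨ν, hprob, ?_⟩
  -- nonnegative functions
  have key : ∀ F : G → ℝ, Continuous F → (∀ g, 0 ≤ F g) →
      (∀ (δ : SL(2, ℤ)) (g : G), F (inc δ * g) = F g) →
      ∀ x : G, ∫ y, F (y * x) ∂ν = ∫ y, F y ∂ν := by
    intro F hF h0 hi x
    have hFx : Continuous fun y => F (y * x) := hF.comp (continuous_mul_const x)
    rw [integral_eq_lintegral_of_nonneg_ae (Filter.Eventually.of_forall fun y => h0 (y * x))
      hFx.measurable.aestronglyMeasurable,
      integral_eq_lintegral_of_nonneg_ae (Filter.Eventually.of_forall h0)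
      hF.measurable.aestronglyMeasurable,
      hl (fun y => ENNReal.ofReal (F (y * x))) (ENNReal.measurable_ofReal.comp hFx.measurable),
      hl (fun y => ENNReal.ofReal (F y)) (ENNReal.measurable_ofReal.comp hF.measurable)]
    congr 2
    exact Meas_inv_mean μ hQ (f := fun y => ENNReal.ofReal (F y))
      (ENNReal.measurable_ofReal.comp hF.measurable) hs (fun δ g => by rw [hi]) x
  intro F hF hb hi x
  obtain ⟨M, hM⟩ := hb
  have h1 := key (fun g => F g + M) (hF.add continuous_const)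
    (fun g => by have := abs_le.1 (hM g); linarith) (fun δ g => by rw [hi]) x
  have hFx : Continuous fun y => F (y * x) := hF.comp (continuous_mul_const x)
  have i1 : Integrable F ν := by
    refine Integrable.of_bound hF.measurable.aestronglyMeasurable M ?_
    exact Filter.Eventually.of_forall fun g => by rw [Real.norm_eq_abs]; exact hM g
  have i2 : Integrable (fun y => F (y * x)) ν := by
    refine Integrable.of_bound hFx.measurable.aestronglyMeasurable M ?_
    exact Filter.Eventually.of_forall fun g => by rw [Real.norm_eq_abs]; exact hM _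
  rw [integral_add i2 (integrable_const M), integral_add i1 (integrable_const M)] at h1
  exact add_right_cancel h1

end Pool.Agent.Helper87.BCR
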