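import Pool.Agent.Helper87.BCR.Basic

/-!
# Project BC, block RED: the operator of the weights (piece BC-RED-STRONG)

* `const`: `tsum_mul_right` and `hp.sum`.  `add`, `smul`, `bdd`: every
  `fun γ => p γ g * f (inc γ)` with `|f| ≤ M` is summable (`Summable.of_norm_bounded`, with
  `p γ g * |M|`); `bdd`: `|∑' γ, p γ g * f (inc γ)| ≤ ∑' γ, p γ g * M = M`
  (`norm_tsum_le_tsum_norm`, `Summable.tsum_le_tsum`; note that `0 ≤ M` since `|f| ≤ M`).
* `cont`: at a point `(z₀, g₀)` take `U`, `u` from `hp.maj g₀` (shrink `U` to an open set `V`);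
  on the open set `Set.univ ×ˢ V` every term `p γ g * f z (inc γ)` is continuous and bounded by
  `u γ * |M|`: `continuousOn_tsum`, then `ContinuousOn.continuousAt`.
* `T3_equi`: `∑' γ, p γ g * f (inc δ * inc γ) = ∑' γ, p (δ * γ) (inc δ * g) * f (inc (δ * γ))`,
  reindexed by `Equiv.mulLeft δ` (`Equiv.tsum_eq`).
-/

open scoped MatrixGroups UpperHalfPlane Topology
open MeasureTheory

namespace Pool.Agent.Helper87.BCR
open Pool.Agent.Helper11.BC

private theorem Strong_sum {p : SL(2, ℤ) → G → ℝ} (hp : IsWeight p) {f : G → ℝ} {M : ℝ}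
    (hf : ∀ x, |f x| ≤ M) (g : G) : Summable fun γ => p γ g * f (inc γ) := by
  refine Summable.of_norm_bounded (g := fun γ => p γ g * M) ((hp.sum g).summable.mul_right M) ?_
  intro γ
  rw [norm_mul, Real.norm_eq_abs, Real.norm_eq_abs, abs_of_nonneg (hp.nonneg γ g)]
  exact mul_le_mul_of_nonneg_left (hf _) (hp.nonneg γ g)

theorem smk_T3 {p : SL(2, ℤ) → G → ℝ} (hp : IsWeight p) : SMk G (T3 p) := by
  refine ⟨?_, ?_, ?_, ?_, ?_⟩
  · intro c x
    unfold T3
    rw [tsum_mul_right, (hp.sum x).tsum_eq, one_mul]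
  · intro f g M hf hg x
    unfold T3
    rw [← (Strong_sum hp hf x).tsum_add (Strong_sum hp hg x)]
    exact tsum_congr fun γ => by ring
  · intro c f M hf x
    unfold T3
    rw [← tsum_mul_left]
    exact tsum_congr fun γ => by ring
  · intro f M hf x
    unfold T3
    have h1 : HasSum (fun γ => p γ x * M) (1 * M) := (hp.sum x).mul_right M
    rw [one_mul] at h1
    rw [← Real.norm_eq_abs]
    refine tsum_of_norm_bounded h1 ?_
    intro γ
    rw [norm_mul, Real.norm_eq_abs, Real.norm_eq_abs, abs_of_nonneg (hp.nonneg γ x)]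
    exact mul_le_mul_of_nonneg_left (hf _) (hp.nonneg γ x)
  · intro Z _ _ f M hf hM
    rw [continuous_iff_continuousAt]
    rintro ⟨z₀, g₀⟩
    obtain ⟨U, hU, u, hu, hle⟩ := hp.maj g₀
    have hS : (Set.univ : Set Z) ×ˢ U ∈ 𝓝 (z₀, g₀) := prod_mem_nhds Filter.univ_mem hU
    have hc : ContinuousOn (fun q : Z × G => ∑' γ : SL(2, ℤ), p γ q.2 * f q.1 (inc γ))
        ((Set.univ : Set Z) ×ˢ U) := by
      refine continuousOn_tsum (u := fun γ => u γ * |M|) ?_ (hu.mul_right |M|) ?_
      · intro γ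
        apply Continuous.continuousOn
        exact ((hp.cont γ).comp continuous_snd).mul ((hf (inc γ)).comp continuous_fst)
      · rintro γ ⟨z, g⟩ hg
        rw [norm_mul, Real.norm_eq_abs, Real.norm_eq_abs, abs_of_nonneg (hp.nonneg γ g)]
        exact mul_le_mul (hle γ g hg.2) ((hM z _).trans (le_abs_self M)) (abs_nonneg _)
          ((hp.nonneg γ g).trans (hle γ g hg.2))
    exact hc.continuousAt hS

theorem T3_equi {p : SL(2, ℤ) → G → ℝ} (hp : IsWeight p) (f : G → ℝ) (δ : SL(2, ℤ)) (g : G) :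
    T3 p (fun y => f (inc δ * y)) g = T3 p f (inc δ * g) := by
  unfold T3
  rw [← (Equiv.mulLeft δ).tsum_eq (fun γ => p γ (inc δ * g) * f (inc γ))]
  refine tsum_congr fun γ => ?_
  simp only [Equiv.coe_mulLeft]
  rw [hp.equi, inc_mul]

end Pool.Agent.Helper87.BCR
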