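import Pool.Agent.Helper87.BCR.Basic

/-!
# Project BC, block RED: equivariant weights (piece BC-RED-WEIGHT)

Let `nrm g = |g 0 0| + |g 0 1| + |g 1 0| + |g 1 1|`.  Then `nrm (g * h) ≤ nrm g * nrm h`,
`nrm g⁻¹ = nrm g` (the inverse of `!![a, b; c, d]` is `!![d, -b; -c, a]`), `nrm` is continuous and
`0 < nrm g`.  Let `q γ g = exp (-nrm ((inc γ)⁻¹ * g))`.
1. For `nrm g ≤ C`: `nrm (inc γ) = nrm ((inc γ)⁻¹) = nrm ((inc γ)⁻¹ * g * g⁻¹) ≤
   nrm ((inc γ)⁻¹ * g) * C`, so `q γ g ≤ exp (-nrm (inc γ) / C) =: u γ`.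
2. `Summable u`: `γ ↦ (γ 0 0, γ 0 1, γ 1 0, γ 1 1)` is injective into `ℤ × ℤ × ℤ × ℤ`, and the
   sum over `ℤ^4` of `exp (-(|a| + |b| + |c| + |d|) / C)` is a product of four convergent sums
   `∑ exp (-|n| / C)` over `ℤ` (`Summable.of_nat_of_neg`, geometric series;
   `Summable.mul_of_nonneg`; `Summable.comp_injective`).
3. `S g = ∑' γ, q γ g` is continuous (`continuousOn_tsum` on the open sets `{nrm g < C}`), positive.
   By the change of variable `γ ↦ δ * γ`: `q (δ * γ) (inc δ * g) = q γ g`, so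
   `S (inc δ * g) = S g` (`Equiv.tsum_eq (Equiv.mulLeft δ)`).
4. `p γ g = q γ g / S g`.  `maj`: near `g₀`, `S g ≥ S g₀ / 2` and `nrm g ≤ nrm g₀ + 1`, so
   `p γ g ≤ 2 / S g₀ * u γ`.
-/

open scoped MatrixGroups UpperHalfPlane Topology
open MeasureTheory

namespace Pool.Agent.Helper87.BCR
open Pool.Agent.Helper11.BC

private noncomputable def nrm (g : G) : ℝ := |g 0 0| + |g 0 1| + |g 1 0| + |g 1 1|

private theorem nrm_mul (g h : G) : nrm (g * h) ≤ nrm g * nrm h := by
  have e : ∀ i j : Fin 2, |(g * h) i j| ≤ |g i 0| * |h 0 j| + |g i 1| * |h 1 j| := by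
    intro i j
    have h1 : (g * h) i j = g i 0 * h 0 j + g i 1 * h 1 j := by
      rw [Matrix.SpecialLinearGroup.coe_mul, Matrix.mul_apply, Fin.sum_univ_two]
    rw [h1, ← abs_mul, ← abs_mul]
    exact abs_add_le _ _
  have h00 := e 0 0
  have h01 := e 0 1
  have h10 := e 1 0
  have h11 := e 1 1
  unfold nrm
  have a1 := abs_nonneg (g 0 0)
  have a2 := abs_nonneg (g 0 1)
  have a3 := abs_nonneg (g 1 0)
  have a4 := abs_nonneg (g 1 1)
  have b1 := abs_nonneg (h 0 0)
  have b2 := abs_nonneg (h 0 1)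
  have b3 := abs_nonneg (h 1 0)
  have b4 := abs_nonneg (h 1 1)
  nlinarith [mul_nonneg a1 b3, mul_nonneg a1 b4, mul_nonneg a2 b1, mul_nonneg a2 b2,
    mul_nonneg a3 b3, mul_nonneg a3 b4, mul_nonneg a4 b1, mul_nonneg a4 b2]

private theorem nrm_inv (g : G) : nrm g⁻¹ = nrm g := by
  have h : g⁻¹ = ⟨!![g.1 1 1, -g.1 0 1; -g.1 1 0, g.1 0 0], _⟩ :=
    Matrix.SpecialLinearGroup.SL2_inv_expl g
  unfold nrm
  rw [h]
  show |g 1 1| + |-g 0 1| + |-g 1 0| + |g 0 0| = _
  rw [abs_neg, abs_neg]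
  ring

private theorem nrm_cont : Continuous nrm := by
  have h : ∀ i j : Fin 2, Continuous fun g : G => g i j := fun i j =>
    (continuous_subtype_val (p := fun A : Matrix (Fin 2) (Fin 2) ℝ => A.det = 1)).matrix_elem i j
  unfold nrm
  exact ((((h 0 0).abs.add (h 0 1).abs).add (h 1 0).abs).add (h 1 1).abs)

private theorem nrm_pos (g : G) : 0 < nrm g := by
  have hd : g 0 0 * g 1 1 - g 0 1 * g 1 0 = 1 := by
    have h := g.det_coe
    rwa [Matrix.det_fin_two] at h
  unfold nrm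
  by_contra hcon
  have a1 := abs_nonneg (g 0 0)
  have a2 := abs_nonneg (g 0 1)
  have a3 := abs_nonneg (g 1 0)
  have a4 := abs_nonneg (g 1 1)
  have h1 : |g 0 0| = 0 := by linarith
  have h2 : |g 0 1| = 0 := by linarith
  rw [abs_eq_zero] at h1 h2
  rw [h1, h2] at hd
  simp at hd

/-- the unnormalised weights -/
private noncomputable def qw (γ : SL(2, ℤ)) (g : G) : ℝ := Real.exp (-nrm ((inc γ)⁻¹ * g))

/-- the majorant -/
private noncomputable def uw (C : ℝ) (γ : SL(2, ℤ)) : ℝ := Real.exp (-nrm (inc γ) / C)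

private theorem qw_le {C : ℝ} (hC : 0 < C) (γ : SL(2, ℤ)) {g : G} (hg : nrm g ≤ C) :
    qw γ g ≤ uw C γ := by
  unfold qw uw
  apply Real.exp_le_exp.2
  rw [neg_div]
  apply neg_le_neg
  rw [div_le_iff₀ hC]
  calc nrm (inc γ) = nrm ((inc γ)⁻¹) := (nrm_inv _).symm
    _ = nrm ((inc γ)⁻¹ * g * g⁻¹) := by rw [mul_inv_cancel_right]
    _ ≤ nrm ((inc γ)⁻¹ * g) * nrm g⁻¹ := nrm_mul _ _
    _ ≤ nrm ((inc γ)⁻¹ * g) * C := by
        rw [nrm_inv]
        exact mul_le_mul_of_nonneg_left hg (nrm_pos _).le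

private theorem f_summable {C : ℝ} (hC : 0 < C) :
    Summable fun n : ℤ => Real.exp (-|(n : ℝ)| / C) := by
  have h1 : Summable fun n : ℕ => Real.exp (-(n : ℝ) / C) := by
    have h2 : ∀ n : ℕ, Real.exp (-(n : ℝ) / C) = Real.exp (-1 / C) ^ n := by
      intro n
      rw [← Real.exp_nat_mul]
      congr 1
      ring
    simp only [h2]
    refine summable_geometric_of_lt_one (Real.exp_pos _).le ?_
    rw [Real.exp_lt_one_iff]
    exact div_neg_of_neg_of_pos (by norm_num) hC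
  refine Summable.of_nat_of_neg ?_ ?_
  · refine h1.congr fun n => ?_
    simp
  · refine h1.congr fun n => ?_
    simp

private theorem uw_summable {C : ℝ} (hC : 0 < C) : Summable (uw C) := by
  have hf := f_summable hC
  have h0 : ∀ n : ℤ, 0 ≤ Real.exp (-|(n : ℝ)| / C) := fun n => (Real.exp_pos _).le
  have h2 := hf.mul_of_nonneg hf h0 h0
  have h4 := h2.mul_of_nonneg h2 (fun x => mul_nonneg (h0 _) (h0 _))
    (fun x => mul_nonneg (h0 _) (h0 _))
  have hinj : Function.Injective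
      (fun γ : SL(2, ℤ) => (((γ 0 0, γ 0 1), (γ 1 0, γ 1 1)) : (ℤ × ℤ) × (ℤ × ℤ))) := by
    intro γ δ h
    simp only [Prod.mk.injEq] at h
    obtain ⟨⟨h1, h2⟩, h3, h4⟩ := h
    apply Matrix.SpecialLinearGroup.ext
    intro i j
    fin_cases i <;> fin_cases j
    · exact h1
    · exact h2
    · exact h3
    · exact h4
  refine (h4.comp_injective hinj).congr fun γ => ?_
  simp only [Function.comp_apply]
  unfold uw nrm
  have hc : ∀ i j : Fin 2, (inc γ) i j = ((γ i j : ℤ) : ℝ) := fun i j => rfl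
  rw [hc, hc, hc, hc, ← Real.exp_add, ← Real.exp_add, ← Real.exp_add]
  congr 1
  ring

private theorem qw_summable (g : G) : Summable fun γ => qw γ g :=
  Summable.of_nonneg_of_le (fun _ => (Real.exp_pos _).le)
    (fun γ => qw_le (nrm_pos g) γ le_rfl) (uw_summable (nrm_pos g))

private noncomputable def sw (g : G) : ℝ := ∑' γ, qw γ g

private theorem qw_cont (γ : SL(2, ℤ)) : Continuous (qw γ) := by
  unfold qw
  exact Real.continuous_exp.comp ((nrm_cont.comp (continuous_const.mul continuous_id)).neg)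

private theorem sw_pos (g : G) : 0 < sw g :=
  (qw_summable g).tsum_pos (fun _ => (Real.exp_pos _).le) 1 (Real.exp_pos _)

private theorem sw_cont : Continuous sw := by
  rw [continuous_iff_continuousAt]
  intro g₀
  have hC : 0 < nrm g₀ + 1 := by
    have := nrm_pos g₀
    linarith
  have hop : IsOpen {g : G | nrm g < nrm g₀ + 1} := isOpen_lt nrm_cont continuous_const
  have h : ContinuousOn (fun g => ∑' γ, qw γ g) {g : G | nrm g < nrm g₀ + 1} := by
    refine continuousOn_tsum (u := uw (nrm g₀ + 1)) (fun γ => (qw_cont γ).continuousOn)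
      (uw_summable hC) fun γ g hg => ?_
    rw [Real.norm_of_nonneg (show 0 ≤ qw γ g from (Real.exp_pos _).le)]
    exact qw_le hC γ (le_of_lt hg)
  exact h.continuousAt (hop.mem_nhds (by
    show nrm g₀ < nrm g₀ + 1
    linarith))

private theorem qw_equi (γ δ : SL(2, ℤ)) (g : G) : qw (δ * γ) (inc δ * g) = qw γ g := by
  unfold qw
  rw [inc_mul, mul_inv_rev, mul_assoc, inv_mul_cancel_left]

private theorem sw_equi (δ : SL(2, ℤ)) (g : G) : sw (inc δ * g) = sw g := by
  unfold sw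
  rw [← (Equiv.mulLeft δ).tsum_eq]
  exact tsum_congr fun γ => qw_equi γ δ g

theorem exists_weight : ∃ p : SL(2, ℤ) → G → ℝ, IsWeight p := by
  refine ⟨fun γ g => qw γ g / sw g, ?_, ?_, ?_, ?_, ?_⟩
  · intro γ g
    exact div_nonneg (Real.exp_pos _).le (sw_pos g).le
  · intro γ
    exact (qw_cont γ).div sw_cont fun g => (sw_pos g).ne'
  · intro g
    have h := (qw_summable g).hasSum.div_const (sw g)
    have h1 : (∑' γ, qw γ g) / sw g = 1 := div_self (sw_pos g).ne'
    rwa [h1] at h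
  · intro g₀
    have hC : 0 < nrm g₀ + 1 := by
      have := nrm_pos g₀
      linarith
    have hs := sw_pos g₀
    refine ⟨{g : G | nrm g < nrm g₀ + 1} ∩ {g : G | sw g₀ / 2 < sw g},
      Filter.inter_mem ((isOpen_lt nrm_cont continuous_const).mem_nhds ?_)
        ((isOpen_lt continuous_const sw_cont).mem_nhds ?_),
      fun γ => 2 / sw g₀ * uw (nrm g₀ + 1) γ, (uw_summable hC).mul_left _, ?_⟩
    · show nrm g₀ < nrm g₀ + 1
      linarith
    · show sw g₀ / 2 < sw g₀
      linarith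
    · rintro γ g ⟨h1, h2⟩
      have h2' : sw g₀ / 2 < sw g := h2
      rw [div_le_iff₀ (sw_pos g)]
      have h3 := qw_le hC γ (le_of_lt h1)
      have h4 : 0 < uw (nrm g₀ + 1) γ := Real.exp_pos _
      have h5 : 1 ≤ 2 / sw g₀ * sw g := by
        rw [div_mul_eq_mul_div, le_div_iff₀ hs]
        linarith
      calc qw γ g ≤ uw (nrm g₀ + 1) γ := h3
        _ ≤ uw (nrm g₀ + 1) γ * (2 / sw g₀ * sw g) := le_mul_of_one_le_right h4.le h5
        _ = 2 / sw g₀ * uw (nrm g₀ + 1) γ * sw g := by ring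
  · intro γ δ g
    show qw (δ * γ) (inc δ * g) / sw (inc δ * g) = qw γ g / sw g
    rw [qw_equi, sw_equi]

end Pool.Agent.Helper87.BCR
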