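import Pool.Agent.Helper87.BCR.Desc
import Pool.Agent.Helper87.BCR.Weight
import Pool.Agent.Helper87.BCR.Strong
import Pool.Agent.Helper87.BCR.Meas

/-!
# Project BC, block RED: transfer from `SL(2, ℤ)`
-/

open scoped MatrixGroups UpperHalfPlane Topology
open MeasureTheory

namespace Pool.Agent.Helper87.BCR
open Pool.Agent.Helper11.BC

attribute [local instance] mG bG

/-- A cocycle which is the coboundary of a bounded invariant cochain is the coboundary of a
continuous bounded invariant cochain. -/
theorem transfer {N : ℕ} (c h₁ : List G → ℝ) (M : ℝ) (hc : LC c) (hcb : ∀ l, |c l| ≤ M)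
    (hci : ∀ (g : G) l, c (l.map (g * ·)) = c l) (hcd : ∀ l, dl c l = 0)
    (h1b : ∀ l, |h₁ l| ≤ M) (h1i : ∀ (g : G) l, h₁ (l.map (g * ·)) = h₁ l)
    (h1d : ∀ W, W.length = N + 2 → dl h₁ W = c W) :
    ∃ h : List G → ℝ, LC h ∧ LB h ∧ (∀ (g : G) l, h (l.map (g * ·)) = h l) ∧
      ∀ W, W.length = N + 2 → dl h W = c W := by
  obtain ⟨p, hp⟩ := exists_weight
  obtain ⟨ν, hν, hinv⟩ := exists_measure hp
  have hT : SMk G (T3 p) := smk_T3 hp
  set T := T3 p with hTdef
  let H : List G → ℝ := fun l => tens T h₁ l - pri T c l
  have hHc : LC H := (LC_stens hT (LB.of_bdd h1b)).sub (hc.pri hT.mk' (LB.of_bdd hcb))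
  have hHb : ∀ l : List G, |H l| ≤ M + l.length * M := fun l =>
    (abs_sub _ _).trans (add_le_add (stens_abs_le hT h1b l) (pri_abs_le hT.mk' hc hcb))
  have hHd : ∀ W : List G, W.length = N + 2 → dl H W = c W := by
    intro W hW
    have e1 : dl H W = dl (tens T h₁) W - dl (pri T c) W := dl_sub _ _ _
    have e2 : dl (tens T h₁) W = tens T c W := by
      rw [← (SMk.lin hT).tens_dl _ _ (LB.of_bdd h1b)]
      exact tens_congr_length _ _ _ fun m hm => h1d m (hm.trans hW)
    rw [e1, e2, prism_of_dl_eq_zero hT.mk' hc (LB.of_bdd hcb) hcd]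
    ring
  have hHi : ∀ (δ : SL(2, ℤ)) (l : List G), H (l.map (inc δ * ·)) = H l := by
    intro δ l
    have e1 := stens_map (T := T) (inc δ * ·) (fun f x => T3_equi hp f δ x) l h₁
    have e2 := pri_map hT.mk' (inc δ * ·) (fun f M _ _ x => T3_equi hp f δ x) l c hc
      (LB.of_bdd hcb)
    have e3 : (fun m : List G => h₁ (m.map (inc δ * ·))) = h₁ := funext fun m => h1i _ m
    have e4 : (fun m : List G => c (m.map (inc δ * ·))) = c := funext fun m => hci _ m
    rw [e3] at e1
    rw [e4] at e2
    show tens T h₁ _ - pri T c _ = tens T h₁ l - pri T c l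
    rw [← e1, ← e2]
  -- the functions of the translation
  have hFc : ∀ k : ℕ, Continuous fun q : G × (Fin k → G) =>
      H ((List.ofFn q.2).map (q.1 * ·)) := by
    intro k
    have h2 : Continuous fun q : G × (Fin k → G) => fun i => q.1 * q.2 i :=
      continuous_pi fun i => continuous_fst.mul ((continuous_apply i).comp continuous_snd)
    refine ((hHc k).comp h2).congr fun q => ?_
    show H (List.ofFn fun i => q.1 * q.2 i) = _
    rw [List.map_ofFn]
    rfl
  have hFcl : ∀ l : List G, Continuous fun y : G => H (l.map (y * ·)) := by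
    intro l
    obtain ⟨v, hv⟩ := exists_ofFn l rfl
    have h3 : Continuous fun y : G => ((y, v) : G × (Fin l.length → G)) :=
      continuous_id.prodMk continuous_const
    refine ((hFc l.length).comp h3).congr fun y => ?_
    show H ((List.ofFn v).map (y * ·)) = _
    rw [hv]
  have hFb : ∀ (l : List G) (y : G), |H (l.map (y * ·))| ≤ M + l.length * M := by
    intro l y
    have := hHb (l.map (y * ·))
    rwa [List.length_map] at this
  have hFi : ∀ l : List G, Integrable (fun y : G => H (l.map (y * ·))) ν := by
    intro l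
    refine Integrable.of_bound (hFcl l).aestronglyMeasurable (M + l.length * M) ?_
    exact Filter.Eventually.of_forall fun y => by
      rw [Real.norm_eq_abs]; exact hFb l y
  refine ⟨fun l => ∫ y, H (l.map (y * ·)) ∂ν, ?_, ?_, ?_, ?_⟩
  · intro k
    refine continuous_of_dominated (bound := fun _ => M + k * M) ?_ ?_ ?_ ?_
    · exact fun v => (hFcl _).aestronglyMeasurable
    · intro v
      refine Filter.Eventually.of_forall fun y => ?_
      have := hFb (List.ofFn v) y
      rw [List.length_ofFn] at this
      rw [Real.norm_eq_abs]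
      exact this
    · exact integrable_const _
    · refine Filter.Eventually.of_forall fun y => ?_
      exact (hFc k).comp (continuous_const.prodMk continuous_id)
  · intro k
    refine ⟨M + k * M, fun l hl => ?_⟩
    have h1 := norm_integral_le_of_norm_le_const (μ := ν)
      (f := fun y => H (l.map (y * ·))) (C := M + k * M)
      (Filter.Eventually.of_forall fun y => by
        rw [Real.norm_eq_abs, ← hl]; exact hFb l y)
    simpa using h1
  · intro g l
    have h1 := hinv (fun y => H (l.map (y * ·))) (hFcl l) ⟨_, hFb l⟩ (fun δ y => by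
      have := hHi δ (l.map (y * ·))
      rw [List.map_map] at this
      rw [← this]
      congr 1
      refine List.map_congr_left fun z _ => ?_
      show inc δ * y * z = inc δ * (y * z)
      rw [mul_assoc]) g
    show ∫ y, H ((l.map (g * ·)).map (y * ·)) ∂ν = ∫ y, H (l.map (y * ·)) ∂ν
    rw [← h1]
    refine integral_congr_ae (Filter.Eventually.of_forall fun y => ?_)
    show H ((l.map (g * ·)).map (y * ·)) = H (l.map (y * g * ·))
    rw [List.map_map]
    congr 1
    refine List.map_congr_left fun z _ => ?_
    show y * (g * z) = y * g * z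
    rw [mul_assoc]
  · intro W hW
    have e1 : dl (fun l : List G => ∫ y, H (l.map (y * ·)) ∂ν) W =
        ∫ y, dl (fun l : List G => H (l.map (y * ·))) W ∂ν := by
      unfold dl
      rw [integral_finset_sum]
      · refine Finset.sum_congr rfl fun i _ => ?_
        rw [integral_smul]
      · intro i _
        exact (hFi (W.eraseIdx i)).smul ((-1 : ℝ) ^ i)
    rw [e1]
    have e2 : ∀ y : G, dl (fun l : List G => H (l.map (y * ·))) W = c W := by
      intro y
      rw [dl_map H (y * ·) W, hHd _ (by rw [List.length_map]; exact hW), hci]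
    simp only [e2]
    simp

end Pool.Agent.Helper87.BCR
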